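import Pool.Agent.H54.FP.Jop

/-!
# [H54 FP ALG] Generation of the reduced free power

A closed subalgebra of `B(H)` which contains the copies of `C([0,1])` (or only the `s_i`) contains `F.alg`. A closed
subspace invariant under the `s_i` which contains `Ω` is everything.
-/

namespace Pool.Agent.H54.FP

open Filter Topology

universe w

variable {H : Type w} [NormedAddCommGroup H] [InnerProductSpace ℂ H] [CompleteSpace H] {k : ℕ}

theorem cont_ι (F : FreeRep k H) (i : Fin k) : Continuous (F.ι i) := by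
  refine AddMonoidHomClass.continuous_of_bound (F.ι i) 1 fun f => ?_
  rw [one_mul]
  exact NonUnitalStarAlgHom.norm_apply_le (F.ι i) f

theorem ι_mem_adjoin (F : FreeRep k H) (i : Fin k) (f : C(unitInterval, ℂ)) :
    F.ι i f ∈ StarAlgebra.adjoin ℂ (⋃ i, Set.range (F.ι i)) :=
  StarAlgebra.subset_adjoin _ _ (Set.mem_iUnion.2 ⟨i, Set.mem_range_self f⟩)

theorem adjoin_le_alg (F : FreeRep k H) :
    StarAlgebra.adjoin ℂ (⋃ i, Set.range (F.ι i)) ≤ F.alg :=
  StarSubalgebra.le_topologicalClosure _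

theorem ι_mem (F : FreeRep k H) (i : Fin k) (f : C(unitInterval, ℂ)) : F.ι i f ∈ F.alg :=
  adjoin_le_alg F (ι_mem_adjoin F i f)

theorem s_mem (F : FreeRep k H) (h : C(unitInterval, ℝ)) (i : Fin k) : F.s h i ∈ F.alg :=
  ι_mem F i _

theorem star_cx (h : C(unitInterval, ℝ)) : star (cx h) = cx h := by
  ext t
  simp [cx]

theorem star_s (F : FreeRep k H) (h : C(unitInterval, ℝ)) (i : Fin k) : star (F.s h i) = F.s h i := by
  unfold FreeRep.s
  rw [← map_star, star_cx]

theorem alg_isClosed (F : FreeRep k H) : IsClosed (F.alg : Set (H →L[ℂ] H)) :=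
  StarSubalgebra.isClosed_topologicalClosure _

theorem alg_cyclic (F : FreeRep k H) : Dense {x : H | ∃ a ∈ F.alg, a F.Ω = x} := by
  refine F.cyclic.mono ?_
  rintro x ⟨a, ha, rfl⟩
  exact ⟨a, adjoin_le_alg F ha, rfl⟩

theorem adjoin_le (F : FreeRep k H) (M : Subalgebra ℂ (H →L[ℂ] H)) (h : ∀ i f, F.ι i f ∈ M) :
    ∀ a ∈ StarAlgebra.adjoin ℂ (⋃ i, Set.range (F.ι i)), a ∈ M := by
  intro a ha
  have h1 : a ∈ (StarAlgebra.adjoin ℂ (⋃ i, Set.range (F.ι i))).toSubalgebra := ha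
  rw [StarAlgebra.adjoin_toSubalgebra] at h1
  refine Algebra.adjoin_le ?_ h1
  rintro b (hb | hb)
  · obtain ⟨i, hi⟩ := Set.mem_iUnion.1 hb
    obtain ⟨f, rfl⟩ := hi
    exact h i f
  · obtain ⟨i, hi⟩ := Set.mem_iUnion.1 (Set.mem_star.1 hb)
    obtain ⟨f, hf⟩ := hi
    have h2 : b = F.ι i (star f) := by
      rw [map_star, hf, star_star]
    rw [h2]
    exact h i _

theorem alg_le (F : FreeRep k H) (M : Subalgebra ℂ (H →L[ℂ] H)) (hM : IsClosed (M : Set (H →L[ℂ] H)))
    (h : ∀ i f, F.ι i f ∈ M) : ∀ a ∈ F.alg, a ∈ M := by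
  intro a ha
  have h1 : a ∈ closure ((StarAlgebra.adjoin ℂ (⋃ i, Set.range (F.ι i)) :
      StarSubalgebra ℂ (H →L[ℂ] H)) : Set (H →L[ℂ] H)) := by
    rw [← StarSubalgebra.topologicalClosure_coe]
    exact ha
  exact closure_minimal (adjoin_le F M h) hM h1

theorem cx_dense {h : C(unitInterval, ℝ)} (hh : Function.Injective h) (f : C(unitInterval, ℂ)) :
    f ∈ closure ((Algebra.adjoin ℂ {cx h} : Subalgebra ℂ C(unitInterval, ℂ)) :
      Set C(unitInterval, ℂ)) := by
  have h1 : (StarAlgebra.adjoin ℂ {cx h} : StarSubalgebra ℂ C(unitInterval, ℂ)).SeparatesPoints := by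
    intro x y hxy
    refine ⟨cx h, ⟨cx h, StarAlgebra.subset_adjoin _ _ rfl, rfl⟩, ?_⟩
    intro h2
    have h3 : ((h x : ℝ) : ℂ) = (h y : ℝ) := h2
    exact hxy (hh (by exact_mod_cast h3))
  have h2 := ContinuousMap.starSubalgebra_topologicalClosure_eq_top_of_separatesPoints _ h1
  have h3 : f ∈ (StarAlgebra.adjoin ℂ {cx h} : StarSubalgebra ℂ C(unitInterval, ℂ)).topologicalClosure := by
    rw [h2]
    trivial
  have h4 : f ∈ closure ((StarAlgebra.adjoin ℂ {cx h} : StarSubalgebra ℂ C(unitInterval, ℂ)) :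
      Set C(unitInterval, ℂ)) := by
    rw [← StarSubalgebra.topologicalClosure_coe]
    exact h3
  have h5 : ((StarAlgebra.adjoin ℂ {cx h} : StarSubalgebra ℂ C(unitInterval, ℂ)) :
      Set C(unitInterval, ℂ)) = ((Algebra.adjoin ℂ {cx h} : Subalgebra ℂ C(unitInterval, ℂ)) :
      Set C(unitInterval, ℂ)) := by
    have h6 : (StarAlgebra.adjoin ℂ {cx h} : StarSubalgebra ℂ C(unitInterval, ℂ)).toSubalgebra =
        Algebra.adjoin ℂ {cx h} := by
      rw [StarAlgebra.adjoin_toSubalgebra, Set.star_singleton, star_cx, Set.union_self]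
    rw [← h6]
    rfl
  rw [← h5]
  exact h4

theorem alg_le_s (F : FreeRep k H) {h : C(unitInterval, ℝ)} (hh : Function.Injective h)
    (M : Subalgebra ℂ (H →L[ℂ] H)) (hM : IsClosed (M : Set (H →L[ℂ] H)))
    (hs : ∀ i, F.s h i ∈ M) : ∀ a ∈ F.alg, a ∈ M := by
  refine alg_le F M hM fun i f => ?_
  have h1 : IsClosed {f | F.ι i f ∈ M} := hM.preimage (cont_ι F i)
  refine closure_minimal ?_ h1 (cx_dense hh f)
  intro g hg
  have h2 : Algebra.adjoin ℂ {cx h} ≤ M.comap (F.ι i : C(unitInterval, ℂ) →ₐ[ℂ] (H →L[ℂ] H)) := by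
    refine Algebra.adjoin_le ?_
    rintro _ rfl
    exact hs i
  exact h2 hg

theorem gen_s (F : FreeRep k H) {h : C(unitInterval, ℝ)} (hh : Function.Injective h) :
    ∀ a ∈ F.alg, a ∈ (Algebra.adjoin ℂ (Set.range (F.s h))).topologicalClosure :=
  alg_le_s F hh _ (Subalgebra.isClosed_topologicalClosure _) fun i =>
    Subalgebra.le_topologicalClosure _ (Algebra.subset_adjoin (Set.mem_range_self i))

/-- operators which leave a subspace invariant -/
def stab (V : Submodule ℂ H) : Subalgebra ℂ (H →L[ℂ] H) where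
  carrier := {a | ∀ x ∈ V, a x ∈ V}
  mul_mem' := fun ha hb x hx => ha _ (hb x hx)
  add_mem' := fun ha hb x hx => V.add_mem (ha x hx) (hb x hx)
  algebraMap_mem' := fun r _ hx => V.smul_mem r hx

omit [CompleteSpace H] in
theorem stab_isClosed (V : Submodule ℂ H) (hV : IsClosed (V : Set H)) :
    IsClosed (stab V : Set (H →L[ℂ] H)) := by
  have h1 : (stab V : Set (H →L[ℂ] H)) = ⋂ x ∈ V, {a | a x ∈ V} := by
    ext a
    simp only [Set.mem_iInter]
    rfl
  rw [h1]
  exact isClosed_biInter fun x _ => hV.preimage (by fun_prop : Continuous fun a : H →L[ℂ] H => a x)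

theorem cyclic_s (F : FreeRep k H) {h : C(unitInterval, ℝ)} (hh : Function.Injective h)
    (V : Submodule ℂ H) (hV : IsClosed (V : Set H)) (hΩ : F.Ω ∈ V)
    (hs : ∀ i, ∀ x ∈ V, F.s h i x ∈ V) : V = ⊤ := by
  have h1 := alg_le_s F hh (stab V) (stab_isClosed V hV) hs
  rw [Submodule.eq_top_iff']
  intro x
  refine closure_minimal ?_ hV (alg_cyclic F x)
  rintro _ ⟨a, ha, rfl⟩
  exact h1 a ha _ hΩ

end Pool.Agent.H54.FP
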