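import Pool.Agent.H54.FP.Crb

/-!
# [H54 FP CRD] The chain rule in the other direction

`x` has the dual system `R`, `S` is bounded and all `[x_j,S] = ∑ |u_m⟩⟨v_m|` are trace class. For `a` in the closed
algebra generated by `x`: `∑_j φ_j([a,R_j]) = τ([a,S])`.
-/

namespace Pool.Agent.H54.FP

open Filter Topology

universe w

variable {H : Type w} [NormedAddCommGroup H] [InnerProductSpace ℂ H] [CompleteSpace H]

theorem crd_alg {A : StarSubalgebra ℂ (H →L[ℂ] H)} {Ω : H}
    {J : H →SL[starRingEnd ℂ] H} (hJ1 : ∀ a ∈ A, J (a Ω) = (star a) Ω)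
    (hJ2 : ∀ ξ η, inner ℂ (J ξ) η = inner ℂ (J η) ξ) {n : ℕ}
    {x R : Fin n → (H →L[ℂ] H)} (hx : ∀ i, x i ∈ A) (hR : IsDual Ω x R) {S : H →L[ℂ] H}
    {u v : Fin n → ℕ → H}
    (hT : ∀ i z, HasSum (fun m => inner ℂ (v i m) z • u i m) ((x i * S - S * x i) z))
    {φ : Fin n → (H →L[ℂ] H) →L[ℂ] ℂ}
    (hφ : ∀ i T, HasSum (fun m => inner ℂ (J (u i m)) (T (J (v i m)))) (φ i T))
    {a : H →L[ℂ] H} (ha : a ∈ Algebra.adjoin ℂ (Set.range x)) :
    a ∈ A ∧ ∀ c ∈ A, ∀ d ∈ A,
    ∑ j, φ j (c * (a * R j - R j * a) * d) = tau Ω (c * (a * S - S * a) * d) := by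
  induction ha using Algebra.adjoin_induction with
  | mem a ha =>
    obtain ⟨i, rfl⟩ := ha
    refine ⟨hx i, fun c hc d hd => ?_⟩
    rw [Finset.sum_eq_single i]
    · rw [hR i i, if_pos rfl]
      have h1 := hφ i (c * rk Ω Ω * d)
      have h2 : HasSum (fun m => inner ℂ (v i m) (d Ω) * inner ℂ ((star c) Ω) (u i m))
          (tau Ω (c * (x i * S - S * x i) * d)) := by
        have h3 := (hT i (d Ω)).mapL (innerSL ℂ ((star c) Ω))
        simp only [innerSL_apply_apply, inner_smul_right] at h3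
        rw [show tau Ω (c * (x i * S - S * x i) * d) =
          inner ℂ ((star c) Ω) ((x i * S - S * x i) (d Ω)) by rw [star_left]; rfl]
        exact h3
      refine h1.unique (h2.congr_fun ?_)
      intro m
      have e1 : d Ω = J ((star d) Ω) := by rw [hJ1 _ (star_mem hd), star_star]
      have e3 : (star c) Ω = J (c Ω) := (hJ1 c hc).symm
      rw [e1, e3, inner_J_comm hJ2 (v i m), hJ2 (c Ω), star_left d Ω (J (v i m))]
      simp only [mul_apply_eq_comp, rk_apply, map_smul, inner_smul_right]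
    · intro j _ hij
      rw [hR j i, if_neg hij]
      simp
    · intro h
      exact absurd (Finset.mem_univ i) h
  | algebraMap r =>
    refine ⟨A.algebraMap_mem r, fun c hc d hd => ?_⟩
    have h1 : ∀ T, algebraMap ℂ (H →L[ℂ] H) r * T - T * algebraMap ℂ (H →L[ℂ] H) r = 0 := fun T => by
      rw [Algebra.commutes, sub_self]
    simp only [h1, mul_zero, zero_mul, map_zero, Finset.sum_const_zero]
  | add a a' ha ha' h1 h2 =>
    refine ⟨add_mem h1.1 h2.1, fun c hc d hd => ?_⟩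
    have e1 : ∀ T, c * ((a + a') * T - T * (a + a')) * d =
        c * (a * T - T * a) * d + c * (a' * T - T * a') * d := fun T => by noncomm_ring
    simp only [e1, map_add]
    rw [Finset.sum_add_distrib, h1.2 c hc d hd, h2.2 c hc d hd]
  | mul a a' ha ha' h1 h2 =>
    refine ⟨mul_mem h1.1 h2.1, fun c hc d hd => ?_⟩
    have e1 : ∀ T, c * (a * a' * T - T * (a * a')) * d =
        c * (a * T - T * a) * (a' * d) + c * a * (a' * T - T * a') * d := fun T => by noncomm_ring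
    simp only [e1, map_add]
    rw [Finset.sum_add_distrib, h1.2 c hc (a' * d) (mul_mem h2.1 hd),
      h2.2 (c * a) (mul_mem hc h1.1) d hd]

theorem crd {A : StarSubalgebra ℂ (H →L[ℂ] H)} {Ω : H}
    {J : H →SL[starRingEnd ℂ] H} (hJ1 : ∀ a ∈ A, J (a Ω) = (star a) Ω)
    (hJ2 : ∀ ξ η, inner ℂ (J ξ) η = inner ℂ (J η) ξ) {n : ℕ}
    {x R : Fin n → (H →L[ℂ] H)} (hx : ∀ i, x i ∈ A) (hR : IsDual Ω x R) {S : H →L[ℂ] H}
    {u v : Fin n → ℕ → H}
    (hT : ∀ i z, HasSum (fun m => inner ℂ (v i m) z • u i m) ((x i * S - S * x i) z))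
    {φ : Fin n → (H →L[ℂ] H) →L[ℂ] ℂ}
    (hφ : ∀ i T, HasSum (fun m => inner ℂ (J (u i m)) (T (J (v i m)))) (φ i T))
    {a : H →L[ℂ] H} (ha : a ∈ (Algebra.adjoin ℂ (Set.range x)).topologicalClosure) :
    ∑ j, φ j (a * R j - R j * a) = tau Ω (a * S - S * a) := by
  have hcl : IsClosed {a : H →L[ℂ] H | ∑ j, φ j (a * R j - R j * a) = tau Ω (a * S - S * a)} :=
    isClosed_eq (by fun_prop) (by fun_prop)
  have h1 : a ∈ closure ((Algebra.adjoin ℂ (Set.range x) : Subalgebra ℂ (H →L[ℂ] H)) :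
      Set (H →L[ℂ] H)) := by
    rw [← Subalgebra.topologicalClosure_coe]
    exact ha
  refine closure_minimal (fun z hz => ?_) hcl h1
  have := (crd_alg hJ1 hJ2 hx hR hT hφ hz).2 1 (one_mem A) 1 (one_mem A)
  simp only [one_mul, mul_one] at this
  exact this

end Pool.Agent.H54.FP
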