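import Pool.Agent.H54.FP.Crc
import Pool.Agent.H54.FP.Crd

/-!
# [H54 FP CORE] Two generating tuples with dual systems

If all `[x_j, S_i]` are trace class then the tuples have the same length.
-/

namespace Pool.Agent.H54.FP

open Filter Topology

universe w

variable {H : Type w} [NormedAddCommGroup H] [InnerProductSpace ℂ H] [CompleteSpace H]

omit [CompleteSpace H] in
theorem tau_rk_self {Ω : H} (h : ‖Ω‖ = 1) : tau Ω (rk Ω Ω) = 1 := by
  rw [tau_apply, rk_apply, inner_smul_right, inner_self_eq_norm_sq_to_K, h]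
  simp

theorem core {A : StarSubalgebra ℂ (H →L[ℂ] H)} {Ω : H} (hA : IsTraceVec A Ω) {l k : ℕ}
    {x R : Fin l → (H →L[ℂ] H)} {y S : Fin k → (H →L[ℂ] H)} (hx : ∀ j, x j ∈ A) (hy : ∀ i, y i ∈ A)
    (hR : IsDual Ω x R) (hS : IsDual Ω y S)
    (hxy : ∀ j, x j ∈ (Algebra.adjoin ℂ (Set.range y)).topologicalClosure)
    (hyx : ∀ i, y i ∈ (Algebra.adjoin ℂ (Set.range x)).topologicalClosure)
    (hT : ∀ j i, IsTraceClass (x j * S i - S i * x j)) : l = k := by
  obtain ⟨J, hJ1, hJ2, hJ3, -⟩ := jop hA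
  choose u v hs hT' using hT
  have hs' : ∀ j i, Summable fun m => ‖J (u j i m)‖ * ‖J (v j i m)‖ := fun j i => by
    simpa only [hJ3] using hs j i
  choose φ hφ using fun j i => trf (fun m => J (u j i m)) (fun m => J (v j i m)) (hs' j i)
  have h1 : ∀ j, ∑ i, φ j i (y i * R j - R j * y i) = 1 := by
    intro j
    rw [crc hA hJ1 hJ2 hJ3 hy hS (hxy j) (hs j) (hT' j) (hφ j) (R j), hR j j, if_pos rfl,
      tau_rk_self hA.norm_one]
  have h2 : ∀ i, ∑ j, φ j i (y i * R j - R j * y i) = 1 := by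
    intro i
    rw [crd hJ1 hJ2 hx hR (fun j => hT' j i) (fun j => hφ j i) (hyx i), hS i i, if_pos rfl,
      tau_rk_self hA.norm_one]
  have h3 : (l : ℂ) = k := by
    have e1 : (l : ℂ) = ∑ j : Fin l, ∑ i, φ j i (y i * R j - R j * y i) := by
      simp only [h1, Finset.sum_const, Finset.card_univ, Fintype.card_fin, nsmul_eq_mul, mul_one]
    have e2 : (k : ℂ) = ∑ i, ∑ j : Fin l, φ j i (y i * R j - R j * y i) := by
      simp only [h2, Finset.sum_const, Finset.card_univ, Fintype.card_fin, nsmul_eq_mul, mul_one]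
    rw [e1, e2, Finset.sum_comm]
  exact Nat.cast_injective h3

end Pool.Agent.H54.FP
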