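import Pool.Agent.H54.FP.Alg

/-!
# [H54 FP CPT] Commutators with the right creation operators are compact, and of finite rank on a dense set
-/

namespace Pool.Agent.H54.FP

open Filter Topology

universe w

section

variable {H : Type w} [NormedAddCommGroup H] [InnerProductSpace ℂ H]

theorem rk_compact (u v : H) : IsCompactOperator (rk u v) := by
  have h1 : IsCompactOperator (innerSL ℂ v : H →L[ℂ] ℂ) := isCompactOperator_of_locallyCompactSpace_dom _
  exact h1.clm_comp (ContinuousLinearMap.toSpanSingleton ℂ u)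

theorem tc_rk (u v : H) : IsTraceClass (rk u v) := by
  refine ⟨fun n => if n = 0 then u else 0, fun n => if n = 0 then v else 0, ?_, fun x => ?_⟩
  · refine summable_of_ne_finset_zero (s := {0}) fun n hn => ?_
    rw [Finset.mem_singleton] at hn
    simp [hn]
  · have h1 := hasSum_single (f := fun n : ℕ => inner ℂ (if n = 0 then v else 0) x •
      (if n = 0 then u else 0)) 0 (fun n hn => by simp [hn])
    simpa [rk] using h1

theorem tc_zero : IsTraceClass (0 : H →L[ℂ] H) := by
  have h := tc_rk (0 : H) 0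
  have h1 : rk (0 : H) 0 = 0 := by
    ext x
    simp [rk]
  rwa [h1] at h

theorem tc_add {S T : H →L[ℂ] H} (hS : IsTraceClass S) (hT : IsTraceClass T) : IsTraceClass (S + T) := by
  obtain ⟨u, v, h1, h2⟩ := hS
  obtain ⟨u', v', h1', h2'⟩ := hT
  let U : ℕ → H := fun n => if n % 2 = 0 then u (n / 2) else u' (n / 2)
  let V : ℕ → H := fun n => if n % 2 = 0 then v (n / 2) else v' (n / 2)
  have e1 : ∀ n, U (2 * n) = u n := fun n => by simp [U]
  have e2 : ∀ n, U (2 * n + 1) = u' n := fun n => by
    simp only [U]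
    rw [if_neg (by omega), show (2 * n + 1) / 2 = n by omega]
  have e3 : ∀ n, V (2 * n) = v n := fun n => by simp [V]
  have e4 : ∀ n, V (2 * n + 1) = v' n := fun n => by
    simp only [V]
    rw [if_neg (by omega), show (2 * n + 1) / 2 = n by omega]
  refine ⟨U, V, ?_, fun x => ?_⟩
  · have h3 := HasSum.even_add_odd (f := fun n => ‖U n‖ * ‖V n‖) (m := ∑' n, ‖u n‖ * ‖v n‖)
      (m' := ∑' n, ‖u' n‖ * ‖v' n‖) (by simpa only [e1, e3] using h1.hasSum)
      (by simpa only [e2, e4] using h1'.hasSum)
    exact h3.summable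
  · exact HasSum.even_add_odd (f := fun n => inner ℂ (V n) x • U n) (m := S x) (m' := T x)
      (by simpa only [e1, e3] using h2 x) (by simpa only [e2, e4] using h2' x)

theorem tc_span {T : H →L[ℂ] H} (hT : T ∈ Submodule.span ℂ {T | ∃ u v : H, rk u v = T}) :
    IsTraceClass T := by
  rw [← Submodule.mem_toAddSubmonoid, Submodule.span_eq_closure] at hT
  induction hT using AddSubmonoid.closure_induction with
  | mem x hx =>
    obtain ⟨c, -, _, ⟨u, v, rfl⟩, rfl⟩ := Set.mem_smul.1 hx
    have h1 : c • rk u v = rk (c • u) v := by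
      ext x
      change c • (inner ℂ v x • u) = inner ℂ v x • (c • u)
      rw [smul_comm]
    rw [h1]
    exact tc_rk _ _
  | zero => exact tc_zero
  | add x y _ _ hx hy => exact tc_add hx hy

theorem span_mul_left (a : H →L[ℂ] H) {T : H →L[ℂ] H}
    (hT : T ∈ Submodule.span ℂ {T | ∃ u v : H, rk u v = T}) :
    a * T ∈ Submodule.span ℂ {T | ∃ u v : H, rk u v = T} := by
  induction hT using Submodule.span_induction with
  | mem T hT =>
    obtain ⟨u, v, rfl⟩ := hT
    refine Submodule.subset_span ⟨a u, v, ?_⟩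
    ext x
    simp [rk]
  | zero => rw [mul_zero]; exact Submodule.zero_mem _
  | add a b _ _ ha hb => rw [mul_add]; exact Submodule.add_mem _ ha hb
  | smul c a _ ha => rw [mul_smul_comm]; exact Submodule.smul_mem _ _ ha

end

variable {H : Type w} [NormedAddCommGroup H] [InnerProductSpace ℂ H] [CompleteSpace H] {k : ℕ}

theorem span_mul_right (a : H →L[ℂ] H) {T : H →L[ℂ] H}
    (hT : T ∈ Submodule.span ℂ {T | ∃ u v : H, rk u v = T}) :
    T * a ∈ Submodule.span ℂ {T | ∃ u v : H, rk u v = T} := by
  induction hT using Submodule.span_induction with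
  | mem T hT =>
    obtain ⟨u, v, rfl⟩ := hT
    refine Submodule.subset_span ⟨u, (star a) v, ?_⟩
    ext x
    rw [mul_apply_eq_comp]
    change inner ℂ ((star a) v) x • u = inner ℂ v (a x) • u
    rw [star_left]
  | zero => rw [zero_mul]; exact Submodule.zero_mem _
  | add a b _ _ ha hb => rw [add_mul]; exact Submodule.add_mem _ ha hb
  | smul c a _ ha => rw [smul_mul_assoc]; exact Submodule.smul_mem _ _ ha

theorem comm_adjoin {Ω : H} {n : ℕ} {s S : Fin n → (H →L[ℂ] H)} (hS : IsDual Ω s S) (i : Fin n)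
    {a : H →L[ℂ] H} (ha : a ∈ Algebra.adjoin ℂ (Set.range s)) :
    a * S i - S i * a ∈ Submodule.span ℂ {T | ∃ u v : H, rk u v = T} := by
  induction ha using Algebra.adjoin_induction with
  | mem a ha =>
    obtain ⟨j, rfl⟩ := ha
    rw [hS i j]
    split_ifs
    · exact Submodule.subset_span ⟨_, _, rfl⟩
    · exact Submodule.zero_mem _
  | algebraMap r =>
    rw [Algebra.commutes, sub_self]
    exact Submodule.zero_mem _
  | add a b _ _ ha hb =>
    have e : (a + b) * S i - S i * (a + b) = (a * S i - S i * a) + (b * S i - S i * b) := by noncomm_ring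
    rw [e]
    exact Submodule.add_mem _ ha hb
  | mul a b _ _ ha hb =>
    have e : a * b * S i - S i * (a * b) = a * (b * S i - S i * b) + (a * S i - S i * a) * b := by
      noncomm_ring
    rw [e]
    exact Submodule.add_mem _ (span_mul_left a hb) (span_mul_right b ha)

omit [CompleteSpace H] in
theorem span_compact {T : H →L[ℂ] H} (hT : T ∈ Submodule.span ℂ {T | ∃ u v : H, rk u v = T}) :
    IsCompactOperator T := by
  induction hT using Submodule.span_induction with
  | mem T hT =>
    obtain ⟨u, v, rfl⟩ := hT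
    exact rk_compact u v
  | zero => exact isCompactOperator_zero
  | add a b _ _ ha hb => exact ha.add hb
  | smul c a _ ha => exact ha.smul c

theorem cpt (F : FreeRep k H) {h : C(unitInterval, ℝ)} (hh : Function.Injective h)
    {S : Fin k → (H →L[ℂ] H)} (hS : IsDual F.Ω (F.s h) S) {a : H →L[ℂ] H} (ha : a ∈ F.alg) (i : Fin k) :
    IsCompactOperator (a * S i - S i * a) := by
  have h1 : IsClosed {T : H →L[ℂ] H | IsCompactOperator T} := isClosed_setOfPred_isCompactOperator
  have h2 : IsClosed {a : H →L[ℂ] H | IsCompactOperator (a * S i - S i * a)} :=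
    h1.preimage (by fun_prop : Continuous fun a : H →L[ℂ] H => a * S i - S i * a)
  have h3 : a ∈ closure ((Algebra.adjoin ℂ (Set.range (F.s h)) : Subalgebra ℂ (H →L[ℂ] H)) :
      Set (H →L[ℂ] H)) := by
    rw [← Subalgebra.topologicalClosure_coe]
    exact gen_s F hh a ha
  exact closure_minimal (fun b hb => span_compact (comm_adjoin hS i hb)) h2 h3

theorem adjoin_s_le (F : FreeRep k H) (h : C(unitInterval, ℝ)) :
    ∀ a ∈ Algebra.adjoin ℂ (Set.range (F.s h)), a ∈ F.alg := by
  have h1 : Algebra.adjoin ℂ (Set.range (F.s h)) ≤ F.alg.toSubalgebra := by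
    refine Algebra.adjoin_le ?_
    rintro _ ⟨i, rfl⟩
    exact s_mem F h i
  exact fun a ha => h1 ha

theorem tc_dense (F : FreeRep k H) {h : C(unitInterval, ℝ)} (hh : Function.Injective h)
    {S : Fin k → (H →L[ℂ] H)} (hS : IsDual F.Ω (F.s h) S) {a : H →L[ℂ] H} (ha : a ∈ F.alg)
    {ε : ℝ} (hε : 0 < ε) : ∃ b ∈ F.alg, ‖a - b‖ < ε ∧ ∀ i, IsTraceClass (b * S i - S i * b) := by
  have h3 : a ∈ closure ((Algebra.adjoin ℂ (Set.range (F.s h)) : Subalgebra ℂ (H →L[ℂ] H)) :
      Set (H →L[ℂ] H)) := by
    rw [← Subalgebra.topologicalClosure_coe]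
    exact gen_s F hh a ha
  obtain ⟨b, hb, hab⟩ := Metric.mem_closure_iff.1 h3 ε hε
  rw [dist_eq_norm] at hab
  exact ⟨b, adjoin_s_le F h b hb, hab, fun i => tc_span (comm_adjoin hS i hb)⟩

end Pool.Agent.H54.FP
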