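import Pool.Agent.H54.FP.Defs

/-!
# [H54 FP FUN] The functional of a trace class operator; finite rank approximations
-/

namespace Pool.Agent.H54.FP

open Filter Topology

universe w

variable {H : Type w} [NormedAddCommGroup H] [InnerProductSpace ℂ H]

theorem rk_apply (u v x : H) : rk u v x = inner ℂ v x • u := rfl

theorem trf_bound (u v : ℕ → H) (T : H →L[ℂ] H) (n : ℕ) :
    ‖inner ℂ (u n) (T (v n))‖ ≤ ‖T‖ * (‖u n‖ * ‖v n‖) := by
  calc ‖inner ℂ (u n) (T (v n))‖ ≤ ‖u n‖ * ‖T (v n)‖ := norm_inner_le_norm _ _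
    _ ≤ ‖u n‖ * (‖T‖ * ‖v n‖) := by gcongr; exact T.le_opNorm _
    _ = ‖T‖ * (‖u n‖ * ‖v n‖) := by ring

theorem trf (u v : ℕ → H) (h : Summable fun n => ‖u n‖ * ‖v n‖) :
    ∃ φ : (H →L[ℂ] H) →L[ℂ] ℂ, ∀ T, HasSum (fun n => inner ℂ (u n) (T (v n))) (φ T) := by
  have hs : ∀ T : H →L[ℂ] H, Summable fun n => inner ℂ (u n) (T (v n)) := fun T =>
    Summable.of_norm_bounded (h.mul_left ‖T‖) (trf_bound u v T)
  refine ⟨LinearMap.mkContinuous
    { toFun := fun T => ∑' n, inner ℂ (u n) (T (v n))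
      map_add' := fun S T => by
        rw [← (hs S).tsum_add (hs T)]
        exact tsum_congr fun n => by simp
      map_smul' := fun c T => by
        rw [RingHom.id_apply, smul_eq_mul, ← tsum_mul_left]
        exact tsum_congr fun n => by simp }
    (∑' n, ‖u n‖ * ‖v n‖) ?_, fun T => (hs T).hasSum⟩
  intro T
  have h1 : ‖∑' n, inner ℂ (u n) (T (v n))‖ ≤ ∑' n, ‖T‖ * (‖u n‖ * ‖v n‖) :=
    tsum_of_norm_bounded (h.mul_left ‖T‖).hasSum (trf_bound u v T)
  rw [tsum_mul_left] at h1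
  simpa [mul_comm] using h1

/-- normality of the functional -/
theorem trf_tendsto {ι : Type*} {l : Filter ι} (u v : ℕ → H) (h : Summable fun n => ‖u n‖ * ‖v n‖)
    (φ : (H →L[ℂ] H) →L[ℂ] ℂ) (hφ : ∀ T, HasSum (fun n => inner ℂ (u n) (T (v n))) (φ T))
    (T : ι → (H →L[ℂ] H)) (T0 : H →L[ℂ] H) (C : ℝ) (hC : ∀ i, ‖T i‖ ≤ C)
    (hT : ∀ z, Tendsto (fun i => T i z) l (𝓝 (T0 z))) : Tendsto (fun i => φ (T i)) l (𝓝 (φ T0)) := by
  have h1 : ∀ S, φ S = ∑' n, inner ℂ (u n) (S (v n)) := fun S => (hφ S).tsum_eq.symm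
  simp only [h1]
  refine tendsto_tsum_of_dominated_convergence (h.mul_left C)
    (fun n => Tendsto.inner tendsto_const_nhds (hT (v n))) (Eventually.of_forall fun i n => ?_)
  exact (trf_bound u v (T i) n).trans (mul_le_mul_of_nonneg_right (hC i) (by positivity))

/-- finite sums of rank one operators approximating the identity strongly -/
theorem apx (H : Type w) [NormedAddCommGroup H] [InnerProductSpace ℂ H] [CompleteSpace H] :
    ∃ (κ : Type w) (b : κ → H), (∀ s : Finset κ, ‖∑ i ∈ s, rk (b i) (b i)‖ ≤ 1) ∧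
      ∀ z, Tendsto (fun s : Finset κ => (∑ i ∈ s, rk (b i) (b i)) z) atTop (𝓝 z) := by
  obtain ⟨w, b, -⟩ := exists_hilbertBasis ℂ H
  refine ⟨w, fun i => b i, fun s => ?_, fun z => ?_⟩
  · refine ContinuousLinearMap.opNorm_le_bound _ zero_le_one fun z => ?_
    rw [one_mul, sum_apply]
    simp only [rk_apply]
    have h1 : ‖∑ i ∈ s, (inner ℂ (b i) z : ℂ) • b i‖ ^ 2 ≤ ‖z‖ ^ 2 := by
      have h2 : ‖∑ i ∈ s, (inner ℂ (b i) z : ℂ) • b i‖ ^ 2 = ∑ i ∈ s, ‖(inner ℂ (b i) z : ℂ)‖ ^ 2 := by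
        rw [@norm_sq_eq_re_inner ℂ]
        rw [b.orthonormal.inner_sum]
        rw [map_sum]
        refine Finset.sum_congr rfl fun i _ => ?_
        rw [RCLike.conj_mul]
        norm_cast
      rw [h2]
      exact b.orthonormal.sum_inner_products_le z
    exact (pow_le_pow_iff_left₀ (norm_nonneg _) (norm_nonneg _) two_ne_zero).1 h1
  · have h1 := b.hasSum_repr z
    simp only [b.repr_apply_apply] at h1
    have h2 : ∀ s : Finset w, (∑ i ∈ s, rk (b i) (b i)) z = ∑ i ∈ s, (inner ℂ (b i) z : ℂ) • b i := by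
      intro s
      rw [sum_apply]
      rfl
    simp only [h2]
    exact h1

end Pool.Agent.H54.FP
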