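import Pool.Agent.H54.FP.Jop
import Pool.Agent.H54.FP.Fun

/-!
# [H54 FP CRA] The chain rule against rank one operators

`τ = ⟨Ω, · Ω⟩`. For `x` in the closed algebra generated by `y` and `c, d ∈ A`:
`∑_i (τ(y_i c [x,S_i] d) - τ(c [x,S_i] d y_i)) = τ(d) τ(x c) - τ(c) τ(d x)`.
-/

namespace Pool.Agent.H54.FP

open Filter Topology

universe w

section

variable {H : Type w} [NormedAddCommGroup H] [InnerProductSpace ℂ H]

/-- the vector functional -/
noncomputable def tau (Ω : H) : (H →L[ℂ] H) →L[ℂ] ℂ :=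
  (innerSL ℂ Ω).comp (ContinuousLinearMap.apply ℂ H Ω)

theorem tau_apply (Ω : H) (a : H →L[ℂ] H) : tau Ω a = inner ℂ Ω (a Ω) := rfl

/-- `τ(a P b) = τ(a) τ(b)` -/
theorem tau_rk (Ω : H) (a b : H →L[ℂ] H) : tau Ω (a * rk Ω Ω * b) = tau Ω a * tau Ω b := by
  simp only [tau_apply, mul_apply_eq_comp, rk_apply, map_smul, inner_smul_right]
  ring

end

variable {H : Type w} [NormedAddCommGroup H] [InnerProductSpace ℂ H] [CompleteSpace H]

theorem tau_trace {A : StarSubalgebra ℂ (H →L[ℂ] H)} {Ω : H} (hA : IsTraceVec A Ω)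
    {a b : H →L[ℂ] H} (ha : a ∈ A) (hb : b ∈ A) : tau Ω (a * b) = tau Ω (b * a) :=
  hA.trace a ha b hb

theorem cra_alg {A : StarSubalgebra ℂ (H →L[ℂ] H)} {Ω : H} (hA : IsTraceVec A Ω) {n : ℕ}
    {y S : Fin n → (H →L[ℂ] H)} (hy : ∀ i, y i ∈ A) (hS : IsDual Ω y S) {x : H →L[ℂ] H}
    (hx : x ∈ Algebra.adjoin ℂ (Set.range y)) :
    x ∈ A ∧ ∀ c ∈ A, ∀ d ∈ A,
    ∑ i, (tau Ω (y i * c * (x * S i - S i * x) * d) - tau Ω (c * (x * S i - S i * x) * d * y i)) =
      tau Ω d * tau Ω (x * c) - tau Ω c * tau Ω (d * x) := by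
  induction hx using Algebra.adjoin_induction with
  | mem x hx =>
    obtain ⟨j, rfl⟩ := hx
    refine ⟨hy j, fun c hc d hd => ?_⟩
    rw [Finset.sum_eq_single j]
    · rw [hS j j, if_pos rfl, tau_rk, mul_assoc (c * rk Ω Ω), tau_rk]
      ring
    · intro i _ hij
      rw [hS i j, if_neg hij]
      simp
    · intro h
      exact absurd (Finset.mem_univ j) h
  | algebraMap r =>
    refine ⟨A.algebraMap_mem r, fun c hc d hd => ?_⟩
    have h1 : ∀ i, algebraMap ℂ (H →L[ℂ] H) r * S i - S i * algebraMap ℂ (H →L[ℂ] H) r = 0 := fun i => by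
      rw [Algebra.commutes, sub_self]
    simp only [h1]
    simp only [mul_zero, zero_mul, map_zero, sub_self, Finset.sum_const_zero]
    rw [← Algebra.commutes r d, ← Algebra.smul_def, ← Algebra.smul_def, map_smul, map_smul]
    simp only [smul_eq_mul]
    ring
  | add x x' hx hx' h1 h2 =>
    refine ⟨add_mem h1.1 h2.1, fun c hc d hd => ?_⟩
    have e1 : ∀ i, tau Ω (y i * c * ((x + x') * S i - S i * (x + x')) * d) =
        tau Ω (y i * c * (x * S i - S i * x) * d) + tau Ω (y i * c * (x' * S i - S i * x') * d) :=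
      fun i => by
        rw [← map_add]
        congr 1
        noncomm_ring
    have e2 : ∀ i, tau Ω (c * ((x + x') * S i - S i * (x + x')) * d * y i) =
        tau Ω (c * (x * S i - S i * x) * d * y i) + tau Ω (c * (x' * S i - S i * x') * d * y i) :=
      fun i => by
        rw [← map_add]
        congr 1
        noncomm_ring
    simp only [e1, e2]
    have h3 := h1.2 c hc d hd
    have h4 := h2.2 c hc d hd
    rw [Finset.sum_sub_distrib] at h3 h4 ⊢
    rw [Finset.sum_add_distrib, Finset.sum_add_distrib, add_mul, mul_add, map_add, map_add]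
    linear_combination h3 + h4
  | mul x x' hx hx' h1 h2 =>
    refine ⟨mul_mem h1.1 h2.1, fun c hc d hd => ?_⟩
    have h3 := h1.2 c hc (x' * d) (mul_mem h2.1 hd)
    have h4 := h2.2 (c * x) (mul_mem hc h1.1) d hd
    have e1 : ∀ i, tau Ω (y i * c * (x * x' * S i - S i * (x * x')) * d) =
        tau Ω (y i * c * (x * S i - S i * x) * (x' * d)) +
        tau Ω (y i * (c * x) * (x' * S i - S i * x') * d) := fun i => by
      rw [← map_add]
      congr 1
      noncomm_ring
    have e2 : ∀ i, tau Ω (c * (x * x' * S i - S i * (x * x')) * d * y i) =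
        tau Ω (c * (x * S i - S i * x) * (x' * d) * y i) +
        tau Ω (c * x * (x' * S i - S i * x') * d * y i) := fun i => by
      rw [← map_add]
      congr 1
      noncomm_ring
    simp only [e1, e2]
    rw [Finset.sum_sub_distrib] at h3 h4 ⊢
    rw [Finset.sum_add_distrib, Finset.sum_add_distrib]
    have t1 : tau Ω (x' * (c * x)) = tau Ω (x * x' * c) := by
      rw [← mul_assoc, tau_trace hA (mul_mem h2.1 hc) h1.1, mul_assoc]
    have t2 : tau Ω (c * x) = tau Ω (x * c) := tau_trace hA hc h1.1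
    have t3 : tau Ω (d * x') = tau Ω (x' * d) := tau_trace hA hd h2.1
    have t4 : tau Ω (x' * d * x) = tau Ω (d * (x * x')) := by
      rw [mul_assoc, tau_trace hA h2.1 (mul_mem hd h1.1), mul_assoc]
    rw [t4] at h3
    rw [t1, t2, t3] at h4
    linear_combination h3 + h4

theorem cra {A : StarSubalgebra ℂ (H →L[ℂ] H)} {Ω : H} (hA : IsTraceVec A Ω) {n : ℕ}
    {y S : Fin n → (H →L[ℂ] H)} (hy : ∀ i, y i ∈ A) (hS : IsDual Ω y S) {x : H →L[ℂ] H}
    (hx : x ∈ (Algebra.adjoin ℂ (Set.range y)).topologicalClosure) {c d : H →L[ℂ] H} (hc : c ∈ A)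
    (hd : d ∈ A) :
    ∑ i, (tau Ω (y i * c * (x * S i - S i * x) * d) - tau Ω (c * (x * S i - S i * x) * d * y i)) =
      tau Ω d * tau Ω (x * c) - tau Ω c * tau Ω (d * x) := by
  have hcl : IsClosed {x : H →L[ℂ] H | ∑ i, (tau Ω (y i * c * (x * S i - S i * x) * d) -
      tau Ω (c * (x * S i - S i * x) * d * y i)) =
      tau Ω d * tau Ω (x * c) - tau Ω c * tau Ω (d * x)} :=
    isClosed_eq (by fun_prop) (by fun_prop)
  have h1 : x ∈ closure ((Algebra.adjoin ℂ (Set.range y) : Subalgebra ℂ (H →L[ℂ] H)) : Set (H →L[ℂ] H)) := by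
    rw [← Subalgebra.topologicalClosure_coe]
    exact hx
  exact closure_minimal (fun z hz => (cra_alg hA hy hS hz).2 c hc d hd) hcl h1

end Pool.Agent.H54.FP
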