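import Pool.Agent.H54.FP.Cra

/-!
# [H54 FP CRB] The chain rule in trace form, rank one operators

If `[x,S_i] = ∑ |u_m⟩⟨v_m|` and `φ_i(T) = ∑ ⟨J u_m, T J v_m⟩` then `∑_i φ_i([y_i,R]) = τ([x,R])` for `R` of rank one.
-/

namespace Pool.Agent.H54.FP

open Filter Topology

universe w

variable {H : Type w} [NormedAddCommGroup H] [InnerProductSpace ℂ H] [CompleteSpace H]

theorem denseRange_vec {A : StarSubalgebra ℂ (H →L[ℂ] H)} {Ω : H} (hA : IsTraceVec A Ω) :
    DenseRange (fun a : A => (a : H →L[ℂ] H) Ω) := by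
  refine hA.cyclic.mono ?_
  rintro x ⟨a, ha, rfl⟩
  exact ⟨⟨a, ha⟩, rfl⟩

omit [CompleteSpace H] in
theorem rk_cont : Continuous (fun p : H × H => rk p.1 p.2) := by
  have h1 : Continuous (fun p : H × H => (ContinuousLinearMap.smulRightL ℂ H H) (innerSL ℂ p.2) p.1) :=
    (ContinuousLinearMap.smulRightL ℂ H H).continuous₂.comp
      (((innerSL ℂ).continuous.comp continuous_snd).prodMk continuous_fst)
  exact h1

omit [CompleteSpace H] in
theorem inner_J_comm {J : H →SL[starRingEnd ℂ] H} (hJ2 : ∀ ξ η, inner ℂ (J ξ) η = inner ℂ (J η) ξ)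
    (ξ η : H) : inner ℂ ξ (J η) = inner ℂ η (J ξ) := by
  rw [← inner_conj_symm, hJ2, inner_conj_symm]

theorem crb_vec {A : StarSubalgebra ℂ (H →L[ℂ] H)} {Ω : H}
    {J : H →SL[starRingEnd ℂ] H} (hJ1 : ∀ a ∈ A, J (a Ω) = (star a) Ω)
    (hJ2 : ∀ ξ η, inner ℂ (J ξ) η = inner ℂ (J η) ξ) {y T : H →L[ℂ] H} (hy : y ∈ A)
    {u v : ℕ → H} (hT : ∀ z, HasSum (fun m => inner ℂ (v m) z • u m) (T z))
    {φ : (H →L[ℂ] H) →L[ℂ] ℂ} (hφ : ∀ T, HasSum (fun m => inner ℂ (J (u m)) (T (J (v m)))) (φ T))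
    {c d : H →L[ℂ] H} (hc : c ∈ A) (hd : d ∈ A) :
    φ (y * rk (c Ω) ((star d) Ω) - rk (c Ω) ((star d) Ω) * y) =
      tau Ω (y * c * T * d) - tau Ω (c * T * d * y) := by
  have h1 := hφ (y * rk (c Ω) ((star d) Ω) - rk (c Ω) ((star d) Ω) * y)
  have h2 : HasSum (fun m => inner ℂ (v m) (d Ω) * inner ℂ ((star (y * c)) Ω) (u m))
      (tau Ω (y * c * T * d)) := by
    have h3 := (hT (d Ω)).mapL (innerSL ℂ ((star (y * c)) Ω))
    simp only [innerSL_apply_apply, inner_smul_right] at h3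
    rw [show tau Ω (y * c * T * d) = inner ℂ ((star (y * c)) Ω) (T (d Ω)) by rw [star_left]; rfl]
    exact h3
  have h3 : HasSum (fun m => inner ℂ (v m) (d (y Ω)) * inner ℂ ((star c) Ω) (u m))
      (tau Ω (c * T * d * y)) := by
    have h3 := (hT (d (y Ω))).mapL (innerSL ℂ ((star c) Ω))
    simp only [innerSL_apply_apply, inner_smul_right] at h3
    rw [show tau Ω (c * T * d * y) = inner ℂ ((star c) Ω) (T (d (y Ω))) by rw [star_left]; rfl]
    exact h3
  refine h1.unique ((h2.sub h3).congr_fun ?_)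
  intro m
  have e1 : d Ω = J ((star d) Ω) := by rw [hJ1 _ (star_mem hd), star_star]
  have e2 : (star (y * c)) Ω = J (y (c Ω)) := (hJ1 (y * c) (mul_mem hy hc)).symm
  have e3 : (star c) Ω = J (c Ω) := (hJ1 c hc).symm
  have e4 : d (y Ω) = J ((star y) ((star d) Ω)) := by
    have := hJ1 (star y * star d) (mul_mem (star_mem hy) (star_mem hd))
    rw [star_mul, star_star, star_star] at this
    exact this.symm
  rw [e1, e2, e3, e4, inner_J_comm hJ2 (v m), inner_J_comm hJ2 (v m), hJ2 (y (c Ω)), hJ2 (c Ω),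
    star_left y ((star d) Ω) (J (v m))]
  simp only [sub_apply, mul_apply_eq_comp, rk_apply, map_smul, inner_sub_right,
    inner_smul_right]

theorem crb {A : StarSubalgebra ℂ (H →L[ℂ] H)} {Ω : H} (hA : IsTraceVec A Ω)
    {J : H →SL[starRingEnd ℂ] H} (hJ1 : ∀ a ∈ A, J (a Ω) = (star a) Ω)
    (hJ2 : ∀ ξ η, inner ℂ (J ξ) η = inner ℂ (J η) ξ) {n : ℕ}
    {y S : Fin n → (H →L[ℂ] H)} (hy : ∀ i, y i ∈ A) (hS : IsDual Ω y S) {x : H →L[ℂ] H}
    (hx : x ∈ (Algebra.adjoin ℂ (Set.range y)).topologicalClosure)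
    {u v : Fin n → ℕ → H}
    (hT : ∀ i z, HasSum (fun m => inner ℂ (v i m) z • u i m) ((x * S i - S i * x) z))
    {φ : Fin n → (H →L[ℂ] H) →L[ℂ] ℂ}
    (hφ : ∀ i T, HasSum (fun m => inner ℂ (J (u i m)) (T (J (v i m)))) (φ i T)) (ξ η : H) :
    ∑ i, φ i (y i * rk ξ η - rk ξ η * y i) = tau Ω (x * rk ξ η - rk ξ η * x) := by
  refine (denseRange_vec hA).induction_on₂ (p := fun ξ η =>
    ∑ i, φ i (y i * rk ξ η - rk ξ η * y i) = tau Ω (x * rk ξ η - rk ξ η * x)) ?_ ?_ ξ η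
  · have h0 : Continuous (fun p : H × H => rk p.1 p.2) := rk_cont
    refine isClosed_eq (by fun_prop) ?_
    exact (tau Ω).continuous.comp ((continuous_const.mul h0).sub (h0.mul continuous_const))
  · intro c d
    have hc := c.2
    have hd := d.2
    have h1 := cra hA hy hS hx hc (star_mem hd)
    have h2 : ∀ i, φ i (y i * rk ((c : H →L[ℂ] H) Ω) ((d : H →L[ℂ] H) Ω) -
        rk ((c : H →L[ℂ] H) Ω) ((d : H →L[ℂ] H) Ω) * y i) =
        tau Ω (y i * c * (x * S i - S i * x) * star (d : H →L[ℂ] H)) -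
        tau Ω (c * (x * S i - S i * x) * star (d : H →L[ℂ] H) * y i) := by
      intro i
      have := crb_vec hJ1 hJ2 (hy i) (hT i) (hφ i) hc (star_mem hd)
      rwa [star_star] at this
    simp only [h2, h1]
    simp only [tau_apply, mul_apply_eq_comp, rk_apply, sub_apply,
      inner_sub_right, map_smul, inner_smul_right, star_right]
    ring

end Pool.Agent.H54.FP
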