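import Pool.Agent.H54.FP.Crb

/-!
# [H54 FP CRC] The chain rule in trace form, all bounded operators

If all `[x,S_i] = ∑ |u_m⟩⟨v_m|` are trace class then `∑_i φ_i([y_i,R]) = τ([x,R])` for all bounded `R`.
-/

namespace Pool.Agent.H54.FP

open Filter Topology

universe w

variable {H : Type w} [NormedAddCommGroup H] [InnerProductSpace ℂ H] [CompleteSpace H]

omit [CompleteSpace H] in
theorem mul_rk (R : H →L[ℂ] H) (u v : H) : R * rk u v = rk (R u) v := by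
  ext z
  simp [rk_apply]

theorem crc {A : StarSubalgebra ℂ (H →L[ℂ] H)} {Ω : H} (hA : IsTraceVec A Ω)
    {J : H →SL[starRingEnd ℂ] H} (hJ1 : ∀ a ∈ A, J (a Ω) = (star a) Ω)
    (hJ2 : ∀ ξ η, inner ℂ (J ξ) η = inner ℂ (J η) ξ) (hJ3 : ∀ ξ, ‖J ξ‖ = ‖ξ‖) {n : ℕ}
    {y S : Fin n → (H →L[ℂ] H)} (hy : ∀ i, y i ∈ A) (hS : IsDual Ω y S) {x : H →L[ℂ] H}
    (hx : x ∈ (Algebra.adjoin ℂ (Set.range y)).topologicalClosure)
    {u v : Fin n → ℕ → H} (hs : ∀ i, Summable fun m => ‖u i m‖ * ‖v i m‖)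
    (hT : ∀ i z, HasSum (fun m => inner ℂ (v i m) z • u i m) ((x * S i - S i * x) z))
    {φ : Fin n → (H →L[ℂ] H) →L[ℂ] ℂ}
    (hφ : ∀ i T, HasSum (fun m => inner ℂ (J (u i m)) (T (J (v i m)))) (φ i T)) (R : H →L[ℂ] H) :
    ∑ i, φ i (y i * R - R * y i) = tau Ω (x * R - R * x) := by
  obtain ⟨κ, b, hb1, hb2⟩ := apx H
  set E : Finset κ → (H →L[ℂ] H) := fun s => ∑ i ∈ s, rk (b i) (b i) with hE
  have hRE : ∀ s, R * E s = ∑ i ∈ s, rk (R (b i)) (b i) := fun s => by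
    rw [hE, Finset.mul_sum]
    exact Finset.sum_congr rfl fun i _ => mul_rk R _ _
  have h1 : ∀ s, ∑ i, φ i (y i * (R * E s) - (R * E s) * y i) =
      tau Ω (x * (R * E s) - (R * E s) * x) := by
    intro s
    rw [hRE]
    have e1 : ∀ a : H →L[ℂ] H, a * (∑ i ∈ s, rk (R (b i)) (b i)) - (∑ i ∈ s, rk (R (b i)) (b i)) * a =
        ∑ i ∈ s, (a * rk (R (b i)) (b i) - rk (R (b i)) (b i) * a) := fun a => by
      rw [Finset.mul_sum, Finset.sum_mul, Finset.sum_sub_distrib]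
    simp only [e1, map_sum]
    rw [Finset.sum_comm]
    exact Finset.sum_congr rfl fun j _ => crb hA hJ1 hJ2 hy hS hx hT hφ _ _
  have hlim : ∀ (a : H →L[ℂ] H) (z : H), Tendsto (fun s => (a * (R * E s) - (R * E s) * a) z) atTop
      (𝓝 ((a * R - R * a) z)) := by
    intro a z
    have h2 : Tendsto (fun s => a (R (E s z)) - R (E s (a z))) atTop (𝓝 (a (R z) - R (a z))) :=
      ((a.continuous.comp R.continuous).tendsto z |>.comp (hb2 z)).sub
        ((R.continuous.tendsto (a z)).comp (hb2 (a z)))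
    exact h2
  have h2 : Tendsto (fun s => ∑ i, φ i (y i * (R * E s) - (R * E s) * y i)) atTop
      (𝓝 (∑ i, φ i (y i * R - R * y i))) := by
    refine tendsto_finsetSum _ fun i _ => ?_
    refine trf_tendsto (fun m => J (u i m)) (fun m => J (v i m)) (by simpa only [hJ3] using hs i)
      (φ i) (hφ i) _ _ (2 * ‖y i‖ * ‖R‖) (fun s => ?_) (hlim (y i))
    have e1 : ‖R * E s‖ ≤ ‖R‖ := by
      refine (norm_mul_le _ _).trans ?_
      have := mul_le_mul_of_nonneg_left (hb1 s) (norm_nonneg R)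
      rwa [mul_one] at this
    calc ‖y i * (R * E s) - (R * E s) * y i‖ ≤ ‖y i * (R * E s)‖ + ‖(R * E s) * y i‖ := norm_sub_le _ _
      _ ≤ ‖y i‖ * ‖R * E s‖ + ‖R * E s‖ * ‖y i‖ := add_le_add (norm_mul_le _ _) (norm_mul_le _ _)
      _ = 2 * ‖y i‖ * ‖R * E s‖ := by ring
      _ ≤ 2 * ‖y i‖ * ‖R‖ := mul_le_mul_of_nonneg_left e1 (by positivity)
  have h3 : Tendsto (fun s => tau Ω (x * (R * E s) - (R * E s) * x)) atTop
      (𝓝 (tau Ω (x * R - R * x))) := by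
    simp only [tau_apply]
    exact Tendsto.inner tendsto_const_nhds (hlim x Ω)
  simp only [h1] at h2
  exact tendsto_nhds_unique h2 h3

end Pool.Agent.H54.FP
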