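import Pool.Agent.H54.FP.Fb

/-!
# [H54 FP CRE] Right creation operators

`S_i e_w = e_{w i}`; `[s_j, S_i] = δ_ij P`.
-/

namespace Pool.Agent.H54.FP

open Filter Topology

universe w

variable {H : Type w} [NormedAddCommGroup H] [InnerProductSpace ℂ H] [CompleteSpace H] {k : ℕ}

theorem exists_isom {ι : Type*} (b : HilbertBasis ι ℂ H) {v : ι → H} (hv : Orthonormal ℂ v) :
    ∃ V : H →ₗᵢ[ℂ] H, ∀ i, V (b i) = v i := by
  classical
  refine ⟨(hv.orthogonalFamily.linearIsometry).comp b.repr.toLinearIsometry, fun i => ?_⟩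
  have h1 : b.repr (b i) = lp.single 2 i (1 : ℂ) := by
    rw [← b.repr_symm_single i, LinearIsometryEquiv.apply_symm_apply]
  change hv.orthogonalFamily.linearIsometry (b.repr (b i)) = v i
  rw [h1, OrthogonalFamily.linearIsometry_apply_single]
  simp

theorem e_append_orthonormal (F : FreeRep k H) {h : C(unitInterval, ℝ)} (hh : IsSemi h) (i : Fin k) :
    Orthonormal ℂ (fun w : List (Fin k) => F.e h (w ++ [i])) :=
  (e_orthonormal F hh).comp _ (List.append_left_injective [i])

omit [CompleteSpace H] in
/-- clm ext on a Hilbert basis -/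
theorem ext_basis {ι : Type*} (b : HilbertBasis ι ℂ H) {S T : H →L[ℂ] H} (h : ∀ i, S (b i) = T (b i)) :
    S = T := by
  have h1 : Dense (Submodule.span ℂ (Set.range b) : Set H) := by
    rw [Submodule.dense_iff_topologicalClosure_eq_top]
    exact b.dense_span
  exact ContinuousLinearMap.ext_on h1 (by rintro _ ⟨i, rfl⟩; exact h i)

theorem exists_creation (F : FreeRep k H) {h : C(unitInterval, ℝ)} (hh : IsSemi h) :
    ∃ S : Fin k → (H →L[ℂ] H), (∀ i w, S i (F.e h w) = F.e h (w ++ [i])) ∧ IsDual F.Ω (F.s h) S := by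
  choose V hV using fun i => exists_isom (F.basis hh) (e_append_orthonormal F hh i)
  have h1 : ∀ i w, (V i).toContinuousLinearMap (F.e h w) = F.e h (w ++ [i]) := by
    intro i w
    have := hV i w
    rw [basis_apply] at this
    exact this
  refine ⟨fun i => (V i).toContinuousLinearMap, h1, ?_⟩
  intro i j
  refine ext_basis (F.basis hh) fun w => ?_
  rw [basis_apply]
  change F.s h j ((V i).toContinuousLinearMap (F.e h w)) -
    (V i).toContinuousLinearMap (F.s h j (F.e h w)) = _
  rw [h1, s_e, s_e, map_add, h1]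
  cases w with
  | nil =>
    by_cases hij : i = j
    · subst hij
      rw [if_pos rfl, e_nil]
      simp [rk, inner_self_eq_norm_sq_to_K, F.norm_Ω, e_nil]
    · simp [hij]
  | cons a w =>
    have e1 : inner ℂ F.Ω (F.e h (a :: w)) = 0 := by
      rw [inner_Ω_e F hh, if_neg (by simp)]
    have e2 : (if i = j then rk F.Ω F.Ω else 0 : H →L[ℂ] H) (F.e h (a :: w)) = 0 := by
      split_ifs
      · simp [rk, e1]
      · rfl
    rw [e2]
    by_cases ha : a = j
    · subst ha
      simp only [List.cons_append, List.head?_cons, if_true, List.tail_cons, h1]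
      simp
    · simp only [List.cons_append, List.head?_cons, List.tail_cons, Option.some.injEq, ha, if_false,
        map_zero]
      simp

end Pool.Agent.H54.FP
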