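import Mathlib

/-!
# Reduced free powers of `C([0,1])` and trace class commutators (H54/FP): definitions and plan

MP_dd21a1_an, proposal 109. `A_k = C([0,1])^{*_r k}` is given by a `FreeRep k H`: copies `ι 0, …, ι (k-1)` of
`C([0,1])` in `B(H)` which are free for the vector state of the cyclic vector `Ω`, each with Lebesgue measure as its
distribution. `s_i = ι_i(h)` for a semicircular coordinate `h` (`IsSemi h`), `S_i` the right creation operators
(`[s_j, S_i] = δ_ij P`, `P` the projection on `Ω`).

* `Fin`, `Jop`, `Cra`, `Crb`, `Crc`, `Core`: the chain rule and `m = n` for two generating tuples with dual systems.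
* `Semi`: existence of the coordinate; `Fb`: the Hilbert basis `e_w`; `Cre`: right creation operators; `Tra`: the
  vector state is a trace; `Pow`, `Uni`: it is the only trace; `Imp`: isomorphisms are spatial; `Cpt`: commutators are
  compact; `Exi`: existence of `FreeRep k H`.
-/

namespace Pool.Agent.H54.FP

/-- the rank one operator `x ↦ ⟨v, x⟩ u` -/
noncomputable def rk {H : Type*} [NormedAddCommGroup H] [InnerProductSpace ℂ H] (u v : H) : H →L[ℂ] H :=
  (innerSL ℂ v).smulRight u

/-- trace class: an absolutely convergent sum of rank one operators -/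
def IsTraceClass {H : Type*} [NormedAddCommGroup H] [InnerProductSpace ℂ H] (T : H →L[ℂ] H) : Prop :=
  ∃ u v : ℕ → H, Summable (fun n => ‖u n‖ * ‖v n‖) ∧
    ∀ x, HasSum (fun n => inner ℂ (v n) x • u n) (T x)

/-- `k` copies of `C([0,1])` in `B(H)`, free for the vector state of the cyclic unit vector `Ω`, the state of each copy
being the integral: the representation of the reduced free power on the free product Hilbert space -/
structure FreeRep (k : ℕ) (H : Type*) [NormedAddCommGroup H] [InnerProductSpace ℂ H] [CompleteSpace H] where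
  /-- the vacuum vector -/
  Ω : H
  /-- the copies of `C([0,1])` -/
  ι : Fin k → C(unitInterval, ℂ) →⋆ₐ[ℂ] (H →L[ℂ] H)
  norm_Ω : ‖Ω‖ = 1
  state : ∀ i f, inner ℂ Ω (ι i f Ω) = ∫ t, f t
  free : ∀ L : List (Fin k × C(unitInterval, ℂ)), L ≠ [] → L.IsChain (fun p q => p.1 ≠ q.1) →
    (∀ p ∈ L, ∫ t, p.2 t = 0) → inner ℂ Ω ((L.map fun p => ι p.1 p.2).prod Ω) = 0
  cyclic : Dense {x : H | ∃ a ∈ StarAlgebra.adjoin ℂ (⋃ i, Set.range (ι i)), a Ω = x}

/-- the reduced free power `C([0,1])^{*_r k}`: the C*-algebra generated by the copies -/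
noncomputable def FreeRep.alg {k : ℕ} {H : Type*} [NormedAddCommGroup H] [InnerProductSpace ℂ H] [CompleteSpace H]
    (F : FreeRep k H) : StarSubalgebra ℂ (H →L[ℂ] H) :=
  (StarAlgebra.adjoin ℂ (⋃ i, Set.range (F.ι i))).topologicalClosure

/-- Chebyshev polynomials of the second kind for the interval `[-2,2]`: `1, a, a^2-1, a^3-2a, …` -/
def ch {A : Type*} [Ring A] (a : A) : ℕ → A
  | 0 => 1
  | 1 => a
  | (n + 2) => a * ch a (n + 1) - ch a n

/-- `h` is a coordinate of `[0,1]` (injective) whose distribution for Lebesgue measure is the semicircle law on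
`[-2,2]` (the only probability measure with compact support for which the Chebyshev polynomials have mean `0`) -/
def IsSemi (h : C(unitInterval, ℝ)) : Prop :=
  Function.Injective h ∧ ∀ n : ℕ, 1 ≤ n → ∫ t, ch (h t) n = 0

/-- a real function as a complex one -/
noncomputable def cx (h : C(unitInterval, ℝ)) : C(unitInterval, ℂ) :=
  ⟨fun t => (h t : ℂ), by fun_prop⟩

/-- the generators `s_i` -/
noncomputable def FreeRep.s {k : ℕ} {H : Type*} [NormedAddCommGroup H] [InnerProductSpace ℂ H] [CompleteSpace H]
    (F : FreeRep k H) (h : C(unitInterval, ℝ)) (i : Fin k) : H →L[ℂ] H := F.ι i (cx h)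

/-- `S` is a dual system of `x` for the vector `Ω`: `[x_j, S_i] = δ_ij P` -/
def IsDual {H : Type*} [NormedAddCommGroup H] [InnerProductSpace ℂ H] {n : ℕ} (Ω : H)
    (x S : Fin n → (H →L[ℂ] H)) : Prop :=
  ∀ i j, x j * S i - S i * x j = if i = j then rk Ω Ω else 0

/-- `Ω` is a cyclic trace vector of norm one for `A` -/
structure IsTraceVec {H : Type*} [NormedAddCommGroup H] [InnerProductSpace ℂ H] [CompleteSpace H]
    (A : StarSubalgebra ℂ (H →L[ℂ] H)) (Ω : H) : Prop where
  norm_one : ‖Ω‖ = 1
  cyclic : Dense {x : H | ∃ a ∈ A, a Ω = x}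
  trace : ∀ a ∈ A, ∀ b ∈ A, inner ℂ Ω ((a * b) Ω) = inner ℂ Ω ((b * a) Ω)

end Pool.Agent.H54.FP
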