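import Pool.Agent.H54.FP.Defs

/-!
# [H54 FP SEMI] Existence of the semicircular coordinate

`g θ = (θ - sin θ cos θ)/π` maps `[0,π]` onto `[0,1]`; `h (g θ) = 2 cos θ`.
-/

namespace Pool.Agent.H54.FP

open MeasureTheory Real

theorem integral_I {E : Type*} [NormedAddCommGroup E] [NormedSpace ℝ E] (f : ℝ → E) :
    ∫ t : unitInterval, f t = ∫ x in (0 : ℝ)..1, f x := by
  have h1 := integral_subtype_comap (μ := (volume : Measure ℝ)) (s := unitInterval)
    measurableSet_Icc f
  rw [intervalIntegral.integral_of_le zero_le_one, ← integral_Icc_eq_integral_Ioc]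
  exact h1

/-- `g` -/
noncomputable def gs (θ : ℝ) : ℝ := (θ - sin θ * cos θ) / π

theorem gs_deriv (θ : ℝ) : HasDerivAt gs (2 / π * (sin θ * sin θ)) θ := by
  have h1 : HasDerivAt gs ((1 - (cos θ * cos θ + sin θ * (-sin θ))) / π) θ :=
    ((hasDerivAt_id θ).sub ((hasDerivAt_sin θ).mul (hasDerivAt_cos θ))).div_const π
  convert h1 using 1
  have h2 := sin_sq_add_cos_sq θ
  field_simp
  nlinarith

theorem gs_cont : Continuous gs := by
  unfold gs
  fun_prop

theorem gs_zero : gs 0 = 0 := by simp [gs]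

theorem gs_pi : gs π = 1 := by
  simp [gs, Real.pi_ne_zero]

theorem gs_strictMono : StrictMonoOn gs (Set.Icc 0 π) := by
  refine strictMonoOn_of_deriv_pos (convex_Icc 0 π) gs_cont.continuousOn fun x hx => ?_
  rw [interior_Icc] at hx
  rw [(gs_deriv x).deriv]
  have := sin_pos_of_pos_of_lt_pi hx.1 hx.2
  positivity

theorem gs_mem {θ : ℝ} (hθ : θ ∈ Set.Icc 0 π) : gs θ ∈ Set.Icc (0 : ℝ) 1 := by
  have h0 : (0 : ℝ) ∈ Set.Icc 0 π := ⟨le_rfl, pi_pos.le⟩
  have h1 : π ∈ Set.Icc 0 π := ⟨pi_pos.le, le_rfl⟩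
  have h2 := gs_strictMono.monotoneOn h0 hθ hθ.1
  have h3 := gs_strictMono.monotoneOn hθ h1 hθ.2
  rw [gs_zero] at h2
  rw [gs_pi] at h3
  exact ⟨h2, h3⟩

/-- `ch (2 cos θ) n sin θ = sin ((n+1) θ)` -/
theorem ch_cos (θ : ℝ) (n : ℕ) : ch (2 * cos θ) n * sin θ = sin ((n + 1) * θ) := by
  induction n using Nat.twoStepInduction with
  | zero => simp [ch]
  | one =>
    simp only [ch]
    rw [show ((1 : ℕ) + 1 : ℝ) * θ = 2 * θ by norm_num, sin_two_mul]
    ring
  | more n h1 h2 =>
    simp only [ch]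
    rw [sub_mul, mul_assoc, h1, h2]
    push_cast
    have e1 : sin ((n + 1 + 1 : ℝ) * θ + θ) = sin ((n + 1 + 1 : ℝ) * θ) * cos θ +
      cos ((n + 1 + 1 : ℝ) * θ) * sin θ := sin_add _ _
    have e2 : sin ((n + 1 + 1 : ℝ) * θ - θ) = sin ((n + 1 + 1 : ℝ) * θ) * cos θ -
      cos ((n + 1 + 1 : ℝ) * θ) * sin θ := sin_sub _ _
    rw [show (n + 1 + 1 : ℝ) * θ - θ = (n + 1) * θ by ring] at e2
    rw [show (n + 1 + 1 : ℝ) * θ + θ = (n + 2 + 1) * θ by ring] at e1
    rw [show (n + 1 + 1 : ℝ) * θ = (n + 1 + 1 : ℝ) * θ from rfl] at e1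
    linarith

theorem int_cos (m : ℕ) (hm : 1 ≤ m) : ∫ θ in (0 : ℝ)..π, cos (m * θ) = 0 := by
  have h0 : (m : ℝ) ≠ 0 := by positivity
  rw [intervalIntegral.integral_comp_mul_left (fun x => cos x) h0]
  simp [integral_cos, sin_nat_mul_pi]

theorem int_ch (n : ℕ) (hn : 1 ≤ n) :
    ∫ θ in (0 : ℝ)..π, ch (2 * cos θ) n * (2 / π * (sin θ * sin θ)) = 0 := by
  have h1 : ∀ θ : ℝ, ch (2 * cos θ) n * (2 / π * (sin θ * sin θ)) =
      1 / π * cos (n * θ) - 1 / π * cos ((n + 2 : ℕ) * θ) := by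
    intro θ
    have e1 := ch_cos θ n
    have e2 := cos_sub ((n + 1) * θ) θ
    have e3 := cos_add ((n + 1) * θ) θ
    rw [show ((n : ℝ) + 1) * θ - θ = n * θ by ring] at e2
    rw [show ((n : ℝ) + 1) * θ + θ = (n + 2 : ℕ) * θ by push_cast; ring] at e3
    rw [e2, e3]
    calc ch (2 * cos θ) n * (2 / π * (sin θ * sin θ)) = 2 / π * (ch (2 * cos θ) n * sin θ) * sin θ := by ring
      _ = _ := by rw [e1]; ring
  simp only [h1]
  rw [intervalIntegral.integral_sub (by apply Continuous.intervalIntegrable; fun_prop)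
    (by apply Continuous.intervalIntegrable; fun_prop), intervalIntegral.integral_const_mul,
    intervalIntegral.integral_const_mul, int_cos n hn, int_cos (n + 2) (by omega)]
  simp

theorem exists_semi' : ∃ h : C(unitInterval, ℝ), IsSemi h ∧ Set.range h = Set.Icc (-2) 2 := by
  let G : Set.Icc (0 : ℝ) π → unitInterval := fun θ => ⟨gs θ, gs_mem θ.2⟩
  have hGc : Continuous G := (gs_cont.comp continuous_subtype_val).subtype_mk _
  have hGi : Function.Injective G := by
    intro a b hab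
    exact Subtype.ext (gs_strictMono.injOn a.2 b.2 (congrArg Subtype.val hab))
  have hGs : Function.Surjective G := by
    intro t
    have h1 := intermediate_value_Icc pi_pos.le gs_cont.continuousOn
    rw [gs_zero, gs_pi] at h1
    obtain ⟨θ, hθ, h2⟩ := h1 t.2
    exact ⟨⟨θ, hθ⟩, Subtype.ext h2⟩
  let e : Set.Icc (0 : ℝ) π ≃ₜ unitInterval :=
    Continuous.homeoOfEquivCompactToT2 (f := Equiv.ofBijective G ⟨hGi, hGs⟩) hGc
  have he : ∀ θ, e θ = G θ := fun θ => rfl
  let h : C(unitInterval, ℝ) := ⟨fun t => 2 * cos (e.symm t), by fun_prop⟩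
  have hh : ∀ t, h t = 2 * cos (e.symm t) := fun t => rfl
  refine ⟨h, ⟨?_, fun n hn => ?_⟩, ?_⟩
  · intro a b hab
    rw [hh, hh] at hab
    have h1 : cos (e.symm a) = cos (e.symm b) := by linarith
    exact e.symm.injective (Subtype.ext (injOn_cos (e.symm a).2 (e.symm b).2 h1))
  · let F : ℝ → ℝ := fun x => ch (h (Set.projIcc 0 1 zero_le_one x)) n
    have hF : ∀ t : unitInterval, ch (h t) n = F t := by
      intro t
      simp only [F, Set.projIcc_val]
    have hFc : Continuous F := by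
      have h1 : ∀ m : ℕ, Continuous fun x : ℝ => ch x m := by
        intro m
        induction m using Nat.twoStepInduction with
        | zero => simp only [ch]; fun_prop
        | one => simp only [ch]; fun_prop
        | more m h1 h2 => simp only [ch]; fun_prop
      exact (h1 n).comp (h.continuous.comp continuous_projIcc)
    simp only [hF]
    rw [integral_I F]
    have h2 := intervalIntegral.integral_comp_mul_deriv (a := 0) (b := π) (f := gs)
      (f' := fun θ => 2 / π * (sin θ * sin θ)) (g := F) (fun x _ => gs_deriv x)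
      (by apply Continuous.continuousOn; fun_prop) hFc
    rw [gs_zero, gs_pi] at h2
    rw [← h2]
    refine Eq.trans ?_ (int_ch n hn)
    refine intervalIntegral.integral_congr fun θ hθ => ?_
    rw [Set.uIcc_of_le pi_pos.le] at hθ
    have h3 : Set.projIcc 0 1 zero_le_one (gs θ) = e ⟨θ, hθ⟩ := by
      rw [he, Set.projIcc_of_mem _ (gs_mem hθ)]
    simp only [Function.comp, F, h3, hh, Homeomorph.symm_apply_apply]
  · ext x
    constructor
    · rintro ⟨t, rfl⟩
      rw [hh]
      exact ⟨by linarith [neg_one_le_cos (e.symm t : ℝ)], by linarith [cos_le_one (e.symm t : ℝ)]⟩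
    · rintro ⟨h1, h2⟩
      have h3 : arccos (x / 2) ∈ Set.Icc 0 π := ⟨arccos_nonneg _, arccos_le_pi _⟩
      refine ⟨e ⟨arccos (x / 2), h3⟩, ?_⟩
      rw [hh, Homeomorph.symm_apply_apply]
      change 2 * cos (arccos (x / 2)) = x
      rw [cos_arccos (by linarith) (by linarith)]
      ring

theorem exists_semi : ∃ h : C(unitInterval, ℝ), IsSemi h := by
  obtain ⟨h, hh, -⟩ := exists_semi'
  exact ⟨h, hh⟩

end Pool.Agent.H54.FP
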