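import Pool.Agent.H54.FP.Fb
import Pool.Agent.H54.FP.Semi

/-!
# [H54 FP DNS] Alternating centred products span; orthogonality; the character `χ(t) = e^{2πit}`
-/

namespace Pool.Agent.H54.FP

open Filter Topology MeasureTheory

universe w

variable {H : Type w} [NormedAddCommGroup H] [InnerProductSpace ℂ H] [CompleteSpace H] {k : ℕ}

/-- mean value -/
noncomputable def mean (f : C(unitInterval, ℂ)) : ℂ := ∫ t, f t

/-- centred function -/
noncomputable def ctr (f : C(unitInterval, ℂ)) : C(unitInterval, ℂ) := f - algebraMap ℂ _ (mean f)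

theorem ctr_mean (f : C(unitInterval, ℂ)) : ∫ t, (ctr f) t = 0 := by
  have h1 : Integrable (fun t : unitInterval => f t) :=
    f.continuous.integrable_of_hasCompactSupport (HasCompactSupport.of_compactSpace _)
  have h2 : ∀ t : unitInterval, (ctr f) t = f t - mean f := fun t => rfl
  simp only [h2]
  rw [integral_sub h1 (integrable_const _), integral_const]
  simp [mean]

theorem ι_split (F : FreeRep k H) (i : Fin k) (f : C(unitInterval, ℂ)) :
    F.ι i f = F.ι i (ctr f) + mean f • 1 := by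
  have h1 : f = ctr f + algebraMap ℂ _ (mean f) := by simp [ctr]
  conv_lhs => rw [h1]
  rw [map_add, ← Algebra.algebraMap_eq_smul_one]
  congr 1
  exact AlgHomClass.commutes (F.ι i) _

/-- reversed adjoint list -/
noncomputable def rev (L : List (Fin k × C(unitInterval, ℂ))) : List (Fin k × C(unitInterval, ℂ)) :=
  (L.map fun p => (p.1, star p.2)).reverse

theorem pr_rev (F : FreeRep k H) (L : List (Fin k × C(unitInterval, ℂ))) :
    F.pr (rev L) = star (F.pr L) := by
  induction L with
  | nil => simp [rev, pr_nil]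
  | cons p L ih =>
    have h1 : rev (p :: L) = rev L ++ [(p.1, star p.2)] := by simp [rev]
    rw [h1, pr_append, ih, pr_cons, pr_cons, star_mul, pr_nil, mul_one, map_star]

theorem mean_star {f : C(unitInterval, ℂ)} (hf : ∫ t, f t = 0) : ∫ t, (star f) t = 0 := by
  have h1 : ∀ t, (star f) t = (starRingEnd ℂ) (f t) := fun t => rfl
  simp only [h1]
  rw [integral_conj, hf, map_zero]

theorem alt_rev {L : List (Fin k × C(unitInterval, ℂ))} (h : Alt L) : Alt (rev L) := by
  refine ⟨?_, ?_⟩
  · unfold rev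
    rw [List.isChain_reverse, List.isChain_map]
    exact h.1.imp fun a b hab => hab.symm
  · intro p hp
    simp only [rev, List.mem_reverse, List.mem_map] at hp
    obtain ⟨q, hq, rfl⟩ := hp
    exact mean_star (h.2 q hq)

theorem alt_append {L L' : List (Fin k × C(unitInterval, ℂ))} (h : Alt L) (h' : Alt L')
    (hh : ∀ p ∈ L.getLast?, ∀ q ∈ L'.head?, p.1 ≠ q.1) : Alt (L ++ L') := by
  refine ⟨List.isChain_append.2 ⟨h.1, h'.1, hh⟩, fun p hp => ?_⟩
  rcases List.mem_append.1 hp with hp | hp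
  · exact h.2 p hp
  · exact h'.2 p hp

theorem alt_cons {i : Fin k} {f : C(unitInterval, ℂ)} {L : List (Fin k × C(unitInterval, ℂ))}
    (hf : ∫ t, f t = 0) (h : Alt L) (hh : ∀ q ∈ L.head?, i ≠ q.1) : Alt ((i, f) :: L) := by
  refine ⟨List.IsChain.cons h.1 fun q hq => hh q hq, fun p hp => ?_⟩
  rcases List.mem_cons.1 hp with rfl | hp
  · exact hf
  · exact h.2 p hp

theorem alt_tail {p : Fin k × C(unitInterval, ℂ)} {L : List (Fin k × C(unitInterval, ℂ))}
    (h : Alt (p :: L)) : Alt L ∧ (∀ q ∈ L.head?, p.1 ≠ q.1) ∧ ∫ t, p.2 t = 0 := by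
  refine ⟨⟨h.1.tail, fun q hq => h.2 q (List.mem_cons_of_mem _ hq)⟩, ?_, h.2 p List.mem_cons_self⟩
  intro q hq
  exact (List.isChain_cons.1 h.1).1 q hq

theorem orth_pr (F : FreeRep k H) {L L' : List (Fin k × C(unitInterval, ℂ))} (h : Alt L) (h' : Alt L')
    (hh : ∀ p ∈ L.head?, ∀ q ∈ L'.head?, p.1 ≠ q.1) (hne : L ≠ [] ∨ L' ≠ []) :
    inner ℂ (F.pr L F.Ω) (F.pr L' F.Ω) = 0 := by
  have h1 : Alt (rev L ++ L') := by
    refine alt_append (alt_rev h) h' ?_
    intro p hp q hq
    simp only [rev, List.getLast?_reverse, List.head?_map] at hp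
    obtain ⟨r, hr, rfl⟩ := Option.mem_map.1 hp
    exact hh r hr q hq
  have h2 : rev L ++ L' ≠ [] := by
    intro h3
    rw [List.append_eq_nil_iff] at h3
    rcases hne with hne | hne
    · refine hne ?_
      have := h3.1
      simpa [rev] using this
    · exact hne h3.2
  have h3 := free_alt F h2 h1
  rw [pr_append, pr_rev, mul_apply_eq_comp, star_right] at h3
  exact h3

/-- the span of the alternating centred products -/
noncomputable def FreeRep.D (F : FreeRep k H) : Submodule ℂ (H →L[ℂ] H) :=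
  Submodule.span ℂ {a | ∃ L, Alt L ∧ F.pr L = a}

theorem pr_mem_D (F : FreeRep k H) {L : List (Fin k × C(unitInterval, ℂ))} (h : Alt L) :
    F.pr L ∈ F.D := Submodule.subset_span ⟨L, h, rfl⟩

theorem ι_mul_D_aux (F : FreeRep k H) (i : Fin k) (f : C(unitInterval, ℂ))
    {L : List (Fin k × C(unitInterval, ℂ))} (h : Alt L) (hh : ∀ q ∈ L.head?, i ≠ q.1) :
    F.ι i f * F.pr L ∈ F.D := by
  rw [ι_split, add_mul, smul_mul_assoc, one_mul]
  refine Submodule.add_mem _ ?_ (Submodule.smul_mem _ _ (pr_mem_D F h))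
  have h1 := pr_mem_D F (alt_cons (ctr_mean f) h hh)
  rw [pr_cons] at h1
  exact h1

theorem ι_mul_D (F : FreeRep k H) (i : Fin k) (f : C(unitInterval, ℂ)) {a : H →L[ℂ] H}
    (ha : a ∈ F.D) : F.ι i f * a ∈ F.D := by
  induction ha using Submodule.span_induction with
  | mem a ha =>
    obtain ⟨L, hL, rfl⟩ := ha
    cases L with
    | nil => exact ι_mul_D_aux F i f hL (by simp)
    | cons p L =>
      obtain ⟨h1, h2, h3⟩ := alt_tail hL
      by_cases hp : i = p.1
      · subst hp
        rw [pr_cons, ← mul_assoc, ← map_mul]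
        exact ι_mul_D_aux F p.1 _ h1 h2
      · refine ι_mul_D_aux F i f hL ?_
        intro q hq
        simp only [List.head?_cons, Option.mem_def, Option.some.injEq] at hq
        rw [← hq]
        exact hp
  | zero => rw [mul_zero]; exact Submodule.zero_mem _
  | add a b _ _ ha hb => rw [mul_add]; exact Submodule.add_mem _ ha hb
  | smul c a _ ha => rw [mul_smul_comm]; exact Submodule.smul_mem _ _ ha

theorem adjoin_le_D (F : FreeRep k H) :
    ∀ a ∈ StarAlgebra.adjoin ℂ (⋃ i, Set.range (F.ι i)), a ∈ F.D := by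
  let M : Subalgebra ℂ (H →L[ℂ] H) :=
    { carrier := {a | ∀ d ∈ F.D, a * d ∈ F.D}
      mul_mem' := fun ha hb d hd => by
        rw [mul_assoc]
        exact ha _ (hb d hd)
      add_mem' := fun ha hb d hd => by
        rw [add_mul]
        exact Submodule.add_mem _ (ha d hd) (hb d hd)
      algebraMap_mem' := fun r d hd => by
        rw [← Algebra.smul_def]
        exact Submodule.smul_mem _ _ hd }
  intro a ha
  have h1 := adjoin_le F M (fun i f d hd => ι_mul_D F i f hd) a ha 1
    (by rw [← pr_nil F]; exact pr_mem_D F ⟨List.isChain_nil, by simp⟩)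
  rwa [mul_one] at h1

theorem alg_le_D (F : FreeRep k H) : ∀ a ∈ F.alg, a ∈ closure (F.D : Set (H →L[ℂ] H)) := by
  intro a ha
  have h1 : a ∈ closure ((StarAlgebra.adjoin ℂ (⋃ i, Set.range (F.ι i)) :
      StarSubalgebra ℂ (H →L[ℂ] H)) : Set (H →L[ℂ] H)) := by
    rw [← StarSubalgebra.topologicalClosure_coe]
    exact ha
  exact closure_mono (adjoin_le_D F) h1

/-- a closed subspace containing the vectors of alternating centred products is everything -/
theorem vec_top (F : FreeRep k H) (V : Submodule ℂ H) (hV : IsClosed (V : Set H))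
    (h : ∀ L, Alt L → F.pr L F.Ω ∈ V) : ∀ x, x ∈ V := by
  intro x
  refine closure_minimal ?_ hV (F.cyclic x)
  rintro _ ⟨a, ha, rfl⟩
  have h1 : F.D ≤ V.comap (ContinuousLinearMap.apply ℂ H F.Ω : (H →L[ℂ] H) →ₗ[ℂ] H) := by
    unfold FreeRep.D
    rw [Submodule.span_le]
    rintro _ ⟨L, hL, rfl⟩
    exact h L hL
  exact h1 (adjoin_le_D F a ha)

/-- the character -/
noncomputable def chi : C(unitInterval, ℂ) :=
  ⟨fun t => Complex.exp (2 * Real.pi * Complex.I * (t : ℝ)), by fun_prop⟩

theorem chi_pow (n : ℕ) (t : unitInterval) :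
    (chi ^ n) t = Complex.exp (2 * Real.pi * Complex.I * n * (t : ℝ)) := by
  rw [ContinuousMap.pow_apply]
  change Complex.exp (2 * Real.pi * Complex.I * (t : ℝ)) ^ n = _
  rw [← Complex.exp_nat_mul]
  congr 1
  ring

theorem star_chi_mul : star chi * chi = 1 := by
  ext t
  change (starRingEnd ℂ) (Complex.exp (2 * Real.pi * Complex.I * (t : ℝ))) *
    Complex.exp (2 * Real.pi * Complex.I * (t : ℝ)) = 1
  rw [← Complex.exp_conj, ← Complex.exp_add]
  simp [map_ofNat (starRingEnd ℂ) 2]

theorem chi_mean (n : ℕ) (hn : 1 ≤ n) : ∫ t, (chi ^ n) t = 0 := by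
  simp only [chi_pow]
  rw [integral_I (fun x : ℝ => Complex.exp (2 * Real.pi * Complex.I * n * x))]
  have h0 : (2 * Real.pi * Complex.I * n : ℂ) ≠ 0 := by
    have : (n : ℂ) ≠ 0 := by exact_mod_cast (by omega : n ≠ 0)
    simp [Real.pi_ne_zero, this]
  rw [integral_exp_mul_complex h0]
  have h1 : Complex.exp (2 * Real.pi * Complex.I * n * (1 : ℝ)) = 1 := by
    rw [Complex.exp_eq_one_iff]
    exact ⟨n, by push_cast; ring⟩
  rw [h1]
  simp

theorem star_chi_pow (n : ℕ) : star (chi ^ n) * chi ^ n = 1 := by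
  rw [star_pow, ← mul_pow, star_chi_mul, one_pow]

theorem chi_norm (n : ℕ) : ‖star (chi ^ n)‖ ≤ 1 := by
  rw [ContinuousMap.norm_le _ zero_le_one]
  intro t
  change ‖(starRingEnd ℂ) ((chi ^ n) t)‖ ≤ 1
  rw [RCLike.norm_conj, chi_pow, Complex.norm_exp]
  simp

/-- Riemann-Lebesgue, from Bessel's inequality in the representation -/
theorem chi_tendsto (F : FreeRep k H) (i : Fin k) (f : C(unitInterval, ℂ)) :
    Tendsto (fun n : ℕ => mean (chi ^ n * f)) atTop (𝓝 0) := by
  have h0 : ∀ g : C(unitInterval, ℂ), inner ℂ F.Ω (F.ι i g F.Ω) = mean g := fun g => F.state i g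
  have h1 : Orthonormal ℂ (fun n : ℕ => F.ι i (star (chi ^ n)) F.Ω) := by
    rw [orthonormal_iff_ite]
    intro m n
    have e1 : inner ℂ (F.ι i (star (chi ^ m)) F.Ω) (F.ι i (star (chi ^ n)) F.Ω) =
        mean (chi ^ m * star (chi ^ n)) := by
      rw [map_star, star_left, ← mul_apply_eq_comp, ← map_mul, h0]
    rw [e1]
    split_ifs with h
    · subst h
      rw [mul_comm, star_chi_pow]
      simp [mean]
    · rcases Nat.lt_or_gt_of_ne h with h | h
      · obtain ⟨d, rfl⟩ := Nat.exists_eq_add_of_lt h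
        have e2 : chi ^ m * star (chi ^ (m + d + 1)) = star (chi ^ (d + 1)) := by
          rw [show m + d + 1 = m + (d + 1) by ring, pow_add, star_mul, mul_comm, mul_assoc,
            star_chi_pow, mul_one]
        rw [e2]
        exact mean_star (chi_mean (d + 1) (by omega))
      · obtain ⟨d, rfl⟩ := Nat.exists_eq_add_of_lt h
        have e2 : chi ^ (n + d + 1) * star (chi ^ n) = chi ^ (d + 1) := by
          rw [show n + d + 1 = n + (d + 1) by ring, pow_add, mul_comm, ← mul_assoc, star_chi_pow,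
            one_mul]
        rw [e2]
        exact chi_mean (d + 1) (by omega)
  have h2 := (h1.inner_products_summable (F.ι i f F.Ω)).tendsto_atTop_zero
  have h3 : ∀ n, ‖inner ℂ (F.ι i (star (chi ^ n)) F.Ω) (F.ι i f F.Ω)‖ ^ 2 = ‖mean (chi ^ n * f)‖ ^ 2 := by
    intro n
    rw [map_star, star_left, ← mul_apply_eq_comp, ← map_mul, h0]
  simp only [h3] at h2
  rw [tendsto_zero_iff_norm_tendsto_zero]
  have h4 := (Real.continuous_sqrt.tendsto 0).comp h2
  simpa [Function.comp_def] using h4

end Pool.Agent.H54.FP
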