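import Pool.Agent.H54.FP.Cre
import Pool.Agent.H54.FP.Dns

/-!
# [H54 FP EXI] Existence of the representation

Hilbert space with basis `b_w`, `l_i b_w = b_{i w}`, `s_i = l_i + l_i*`, `ι_i(f) = (f ∘ h^{-1})(s_i)`.
-/

namespace Pool.Agent.H54.FP

open Filter Topology MeasureTheory

universe w

variable {H : Type w} [NormedAddCommGroup H] [InnerProductSpace ℂ H] [CompleteSpace H] {k : ℕ}

theorem exists_left (b : HilbertBasis (List (Fin k)) ℂ H) (i : Fin k) :
    ∃ s : H →L[ℂ] H, star s = s ∧ ‖s‖ ≤ 2 ∧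
      ∀ w, s (b w) = b (i :: w) + if w.head? = some i then b w.tail else 0 := by
  have ho : Orthonormal ℂ (fun w : List (Fin k) => b (i :: w)) :=
    b.orthonormal.comp _ (List.cons_injective)
  obtain ⟨V, hV⟩ := exists_isom b ho
  set L : H →L[ℂ] H := V.toContinuousLinearMap with hL
  have hLb : ∀ w, L (b w) = b (i :: w) := hV
  have hLn : ‖L‖ ≤ 1 := V.norm_toContinuousLinearMap_le
  have hin : ∀ v w, inner ℂ (b v) (b w) = if v = w then (1 : ℂ) else 0 :=
    orthonormal_iff_ite.1 b.orthonormal
  have hstar : ∀ w, (star L) (b w) = if w.head? = some i then b w.tail else 0 := by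
    intro w
    have h1 := b.hasSum_repr ((star L) (b w))
    have h2 := b.hasSum_repr (if w.head? = some i then b w.tail else 0)
    refine h1.unique ?_
    convert h2 using 2 with v
    rw [b.repr_apply_apply, b.repr_apply_apply, star_right, hLb, hin]
    congr 1
    cases w with
    | nil => simp
    | cons j w =>
      by_cases hj : j = i
      · subst hj
        simp only [List.head?_cons, if_true, List.tail_cons, hin, List.cons.injEq, true_and]
      · have : ¬ (i :: v = j :: w) := by
          simp only [List.cons.injEq, not_and]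
          intro h
          exact absurd h.symm hj
        rw [if_neg this]
        simp [hj]
  refine ⟨L + star L, ?_, ?_, fun w => ?_⟩
  · rw [star_add, star_star, add_comm]
  · calc ‖L + star L‖ ≤ ‖L‖ + ‖star L‖ := norm_add_le _ _
      _ = ‖L‖ + ‖L‖ := by rw [norm_star]
      _ ≤ 2 := by linarith
  · rw [add_apply, hLb, hstar]

/-- the functional calculus of one generator -/
theorem exists_iota {h : C(unitInterval, ℝ)} (hi : Function.Injective h)
    (hr : Set.range h = Set.Icc (-2) 2) (s : H →L[ℂ] H) (hs : star s = s) (hn : ‖s‖ ≤ 2) :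
    ∃ ι : C(unitInterval, ℂ) →⋆ₐ[ℂ] (H →L[ℂ] H), ι (cx h) = s := by
  have hsa : IsSelfAdjoint s := hs
  have hN : IsStarNormal s := hsa.isStarNormal
  let G : unitInterval → Set.Icc (-2 : ℝ) 2 := fun t => ⟨h t, by rw [← hr]; exact ⟨t, rfl⟩⟩
  have hGc : Continuous G := h.continuous.subtype_mk _
  have hGb : Function.Bijective G := by
    refine ⟨fun a b hab => hi (congrArg Subtype.val hab), fun x => ?_⟩
    have h1 : (x : ℝ) ∈ Set.range h := by rw [hr]; exact x.2
    obtain ⟨t, ht⟩ := h1
    exact ⟨t, Subtype.ext ht⟩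
  let e : unitInterval ≃ₜ Set.Icc (-2 : ℝ) 2 :=
    Continuous.homeoOfEquivCompactToT2 (f := Equiv.ofBijective G hGb) hGc
  have he : ∀ t, e t = G t := fun t => rfl
  have hmem : ∀ x : spectrum ℂ s, (x : ℂ).re ∈ Set.Icc (-2 : ℝ) 2 := by
    intro x
    have h1 := spectrum.norm_le_norm_mul_of_mem x.2
    have h0 : ‖(1 : H →L[ℂ] H)‖ ≤ 1 := ContinuousLinearMap.norm_id_le
    have h3 : ‖s‖ * ‖(1 : H →L[ℂ] H)‖ ≤ ‖s‖ * 1 := mul_le_mul_of_nonneg_left h0 (norm_nonneg _)
    rw [mul_one] at h3
    have h2 := (Complex.abs_re_le_norm (x : ℂ)).trans (h1.trans (h3.trans hn))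
    exact abs_le.1 h2
  let g : C(spectrum ℂ s, unitInterval) :=
    ⟨fun x => e.symm ⟨(x : ℂ).re, hmem x⟩, by fun_prop⟩
  refine ⟨(cfcHom (R := ℂ) hN).comp (ContinuousMap.compStarAlgHom' ℂ ℂ g), ?_⟩
  have h1 : (ContinuousMap.compStarAlgHom' ℂ ℂ g) (cx h) =
      (ContinuousMap.restrict (spectrum ℂ s) (ContinuousMap.id ℂ)) := by
    ext x
    change ((h (e.symm ⟨(x : ℂ).re, hmem x⟩) : ℝ) : ℂ) = (x : ℂ)
    have h2 : h (e.symm ⟨(x : ℂ).re, hmem x⟩) = (x : ℂ).re := by
      have h3 := congrArg Subtype.val (e.apply_symm_apply ⟨(x : ℂ).re, hmem x⟩)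
      exact h3
    rw [h2]
    exact (hsa.mem_spectrum_eq_re x.2).symm
  change cfcHom (R := ℂ) hN ((ContinuousMap.compStarAlgHom' ℂ ℂ g) (cx h)) = s
  rw [h1]
  exact cfcHom_id hN

theorem ch_span_dense {h : C(unitInterval, ℝ)} (hi : Function.Injective h) (f : C(unitInterval, ℂ)) :
    f ∈ (Submodule.span ℂ (Set.range (ch (cx h)))).topologicalClosure := by
  have h1 : ∀ p ∈ Submodule.span ℂ (Set.range (ch (cx h))), cx h * p ∈
      Submodule.span ℂ (Set.range (ch (cx h))) := by
    intro p hp
    induction hp using Submodule.span_induction with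
    | mem p hp =>
      obtain ⟨n, rfl⟩ := hp
      cases n with
      | zero =>
        simp only [ch, mul_one]
        exact Submodule.subset_span ⟨1, rfl⟩
      | succ n =>
        have h2 : cx h * ch (cx h) (n + 1) = ch (cx h) (n + 2) + ch (cx h) n := by
          simp only [ch]
          ring
        rw [h2]
        exact Submodule.add_mem _ (Submodule.subset_span ⟨_, rfl⟩) (Submodule.subset_span ⟨_, rfl⟩)
    | zero => rw [mul_zero]; exact Submodule.zero_mem _
    | add a b _ _ ha hb => rw [mul_add]; exact Submodule.add_mem _ ha hb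
    | smul c a _ ha => rw [mul_smul_comm]; exact Submodule.smul_mem _ _ ha
  let M : Subalgebra ℂ C(unitInterval, ℂ) :=
    { carrier := {g | ∀ p ∈ Submodule.span ℂ (Set.range (ch (cx h))), g * p ∈
        Submodule.span ℂ (Set.range (ch (cx h)))}
      mul_mem' := fun ha hb d hd => by
        rw [mul_assoc]
        exact ha _ (hb d hd)
      add_mem' := fun ha hb d hd => by
        rw [add_mul]
        exact Submodule.add_mem _ (ha d hd) (hb d hd)
      algebraMap_mem' := fun r d hd => by
        rw [← Algebra.smul_def]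
        exact Submodule.smul_mem _ _ hd }
  have h2 : Algebra.adjoin ℂ {cx h} ≤ M := by
    refine Algebra.adjoin_le ?_
    rintro _ rfl
    exact h1
  have h3 : ∀ g ∈ Algebra.adjoin ℂ {cx h}, g ∈ Submodule.span ℂ (Set.range (ch (cx h))) := by
    intro g hg
    have h4 := h2 hg 1 (Submodule.subset_span ⟨0, rfl⟩)
    rwa [mul_one] at h4
  exact closure_mono h3 (cx_dense hi f)

end Pool.Agent.H54.FP
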