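import Pool.Agent.H54.FP.Exi

/-!
# [H54 FP EXJ] Existence of the representation, conclusion
-/

namespace Pool.Agent.H54.FP

open Filter Topology MeasureTheory

universe w

theorem integrable_cf (f : C(unitInterval, ℂ)) : Integrable (fun t : unitInterval => f t) :=
  f.continuous.integrable_of_hasCompactSupport (HasCompactSupport.of_compactSpace _)

theorem mean_add (f g : C(unitInterval, ℂ)) : mean (f + g) = mean f + mean g :=
  integral_add (integrable_cf f) (integrable_cf g)

theorem mean_smul (c : ℂ) (f : C(unitInterval, ℂ)) : mean (c • f) = c * mean f :=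
  integral_const_mul c _

theorem mean_cont : Continuous mean := by
  refine (LipschitzWith.of_dist_le_mul (K := 1) fun f g => ?_).continuous
  rw [dist_eq_norm, dist_eq_norm, NNReal.coe_one, one_mul]
  have h1 : mean f - mean g = ∫ t, (f - g) t := (integral_sub (integrable_cf f) (integrable_cf g)).symm
  rw [h1]
  have h2 := norm_integral_le_of_norm_le_const (μ := (volume : Measure unitInterval))
    (f := fun t => (f - g) t) (C := ‖f - g‖) (Eventually.of_forall fun t => (f - g).norm_coe_le_norm t)
  simpa using h2

variable {H : Type w} [NormedAddCommGroup H] [InnerProductSpace ℂ H] [CompleteSpace H] {k : ℕ}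

omit [CompleteSpace H] in
theorem ch_basis (b : HilbertBasis (List (Fin k)) ℂ H) {s : H →L[ℂ] H} {i : Fin k}
    (hs : ∀ w, s (b w) = b (i :: w) + if w.head? = some i then b w.tail else 0)
    {w : List (Fin k)} (hw : w.head? ≠ some i) (n : ℕ) :
    (ch s n) (b w) = b (List.replicate n i ++ w) := by
  induction n using Nat.twoStepInduction with
  | zero => simp [ch]
  | one => simp [ch, hs, hw]
  | more n h1 h2 =>
    simp only [ch]
    rw [sub_apply, mul_apply_eq_comp, h1, h2, hs]
    simp [List.replicate_succ]

/-- closed span of the basis vectors starting with `i` -/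
noncomputable def Vi (b : HilbertBasis (List (Fin k)) ℂ H) (i : Fin k) : Submodule ℂ H :=
  (Submodule.span ℂ {x | ∃ w : List (Fin k), w.head? = some i ∧ b w = x}).topologicalClosure

/-- closed span of the basis vectors not starting with `i` -/
noncomputable def Ui (b : HilbertBasis (List (Fin k)) ℂ H) (i : Fin k) : Submodule ℂ H :=
  (Submodule.span ℂ {x | ∃ w : List (Fin k), w.head? ≠ some i ∧ b w = x}).topologicalClosure

theorem iota_V (b : HilbertBasis (List (Fin k)) ℂ H) {h : C(unitInterval, ℝ)} (hh : IsSemi h)
    (ι : C(unitInterval, ℂ) →⋆ₐ[ℂ] (H →L[ℂ] H)) {i : Fin k}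
    (hs : ∀ w, ι (cx h) (b w) = b (i :: w) + if w.head? = some i then b w.tail else 0)
    (f : C(unitInterval, ℂ)) {x : H} (hx : x ∈ Ui b i) : ι f x - mean f • x ∈ Vi b i := by
  have hVc : IsClosed (Vi b i : Set H) := Submodule.isClosed_topologicalClosure _
  have hιc : Continuous ι := by
    refine AddMonoidHomClass.continuous_of_bound ι 1 fun f => ?_
    rw [one_mul]
    exact NonUnitalStarAlgHom.norm_apply_le ι f
  have h1 : ∀ w : List (Fin k), w.head? ≠ some i → ι f (b w) - mean f • b w ∈ Vi b i := by
    intro w hw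
    let T : C(unitInterval, ℂ) →ₗ[ℂ] H :=
      { toFun := fun f => ι f (b w) - mean f • b w
        map_add' := fun f g => by
          rw [map_add, mean_add, add_apply, add_smul]
          abel
        map_smul' := fun c f => by
          rw [map_smul, mean_smul, smul_apply, mul_smul, smul_sub]
          rfl }
    have hTc : Continuous T := by
      have e1 : Continuous fun f => ι f (b w) := by fun_prop
      exact e1.sub (mean_cont.smul continuous_const)
    have h2 : Submodule.span ℂ (Set.range (ch (cx h))) ≤ (Vi b i).comap T := by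
      rw [Submodule.span_le]
      rintro _ ⟨n, rfl⟩
      change ι (ch (cx h) n) (b w) - mean (ch (cx h) n) • b w ∈ Vi b i
      have h3 : ι (ch (cx h) n) = ch (ι (cx h)) n := ch_map (ι : C(unitInterval, ℂ) →+* (H →L[ℂ] H)) _ n
      rw [h3, ch_basis b hs hw]
      cases n with
      | zero =>
        have : mean (ch (cx h) 0) = 1 := by simp [mean, ch]
        rw [this]
        simp
      | succ n =>
        have : mean (ch (cx h) (n + 1)) = 0 := ch_mean hh n
        rw [this, zero_smul, sub_zero]
        exact Submodule.le_topologicalClosure _ (Submodule.subset_span ⟨_, by simp [List.replicate_succ], rfl⟩)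
    have h3 : IsClosed {f | T f ∈ Vi b i} := hVc.preimage hTc
    exact closure_minimal h2 h3 (ch_span_dense hh.1 f)
  have h2 : Ui b i ≤ (Vi b i).comap ((ι f - mean f • 1 : H →L[ℂ] H) : H →ₗ[ℂ] H) := by
    refine Submodule.topologicalClosure_minimal _ ?_
      (hVc.preimage (ι f - mean f • 1 : H →L[ℂ] H).continuous)
    rw [Submodule.span_le]
    rintro _ ⟨w, hw, rfl⟩
    exact h1 w hw
  exact h2 hx

theorem exists_rep (b : HilbertBasis (List (Fin k)) ℂ H) : Nonempty (FreeRep k H) := by
  obtain ⟨h, hh, hr⟩ := exists_semi'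
  choose s hs1 hs2 hs3 using exists_left b
  choose ι hι using fun i => exists_iota hh.1 hr (s i) (hs1 i) (hs2 i)
  have hs : ∀ i w, ι i (cx h) (b w) = b (i :: w) + if w.head? = some i then b w.tail else 0 := by
    intro i w
    rw [hι, hs3]
  have hin : ∀ v w, inner ℂ (b v) (b w) = if v = w then (1 : ℂ) else 0 :=
    orthonormal_iff_ite.1 b.orthonormal
  have hU0 : ∀ i, b [] ∈ Ui b i := fun i =>
    Submodule.le_topologicalClosure _ (Submodule.subset_span ⟨[], by simp, rfl⟩)
  have hVU : ∀ i j, j ≠ i → Vi b j ≤ Ui b i := by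
    intro i j hij
    refine Submodule.topologicalClosure_minimal _ ?_ (Submodule.isClosed_topologicalClosure _)
    rw [Submodule.span_le]
    rintro _ ⟨w, hw, rfl⟩
    refine Submodule.le_topologicalClosure _ (Submodule.subset_span ⟨w, ?_, rfl⟩)
    rw [hw]
    simpa using hij
  have hΩV : ∀ i, ∀ x ∈ Vi b i, inner ℂ (b []) x = 0 := by
    intro i
    have h1 : Vi b i ≤ (ℂ ∙ b [])ᗮ := by
      refine Submodule.topologicalClosure_minimal _ ?_ (Submodule.isClosed_orthogonal _)
      rw [Submodule.span_le]
      rintro _ ⟨w, hw, rfl⟩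
      rw [SetLike.mem_coe, Submodule.mem_orthogonal_singleton_iff_inner_right, hin, if_neg]
      rintro rfl
      simp at hw
    intro x hx
    exact Submodule.mem_orthogonal_singleton_iff_inner_right.1 (h1 hx)
  have hpr : ∀ (L : List (Fin k × C(unitInterval, ℂ))) (q : Fin k × C(unitInterval, ℂ)),
      (q :: L).IsChain (fun p q => p.1 ≠ q.1) → (∀ p ∈ q :: L, ∫ t, p.2 t = 0) →
      ((q :: L).map fun p => ι p.1 p.2).prod (b []) ∈ Vi b q.1 := by
    intro L
    induction L with
    | nil =>
      intro q _ hq
      have h1 := iota_V b hh (ι q.1) (hs q.1) q.2 (hU0 q.1)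
      have h2 : mean q.2 = 0 := hq q (by simp)
      rw [h2, zero_smul, sub_zero] at h1
      simpa using h1
    | cons r L ih =>
      intro q hc hq
      have h1 := ih r hc.tail (fun p hp => hq p (List.mem_cons_of_mem _ hp))
      have hne : q.1 ≠ r.1 := (List.isChain_cons_cons.1 hc).1
      have h2 := iota_V b hh (ι q.1) (hs q.1) q.2 (hVU q.1 r.1 hne.symm h1)
      have h3 : mean q.2 = 0 := hq q (by simp)
      rw [h3, zero_smul, sub_zero] at h2
      rw [List.map_cons, List.prod_cons]
      exact h2
  refine ⟨{ Ω := b [], ι := ι, norm_Ω := b.orthonormal.1 [], state := ?_, free := ?_, cyclic := ?_ }⟩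
  · intro i f
    have h1 := hΩV i _ (iota_V b hh (ι i) (hs i) f (hU0 i))
    rw [inner_sub_right, inner_smul_right, hin, if_pos rfl, mul_one, sub_eq_zero] at h1
    exact h1
  · intro L hne hc hL
    obtain ⟨q, L', rfl⟩ := List.exists_cons_of_ne_nil hne
    exact hΩV q.1 _ (hpr L' q hc hL)
  · set A₀ := StarAlgebra.adjoin ℂ (⋃ i, Set.range (ι i)) with hA₀
    have hsA : ∀ i, ι i (cx h) ∈ A₀ := fun i =>
      StarAlgebra.subset_adjoin _ _ (Set.mem_iUnion.2 ⟨i, Set.mem_range_self _⟩)
    have h1 : ∀ (n : ℕ) (w : List (Fin k)), w.length ≤ n → ∃ a ∈ A₀, a (b []) = b w := by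
      intro n
      induction n with
      | zero =>
        intro w hw
        have : w = [] := List.eq_nil_of_length_eq_zero (by omega)
        subst this
        exact ⟨1, one_mem _, rfl⟩
      | succ n ih =>
        intro w hw
        cases w with
        | nil => exact ⟨1, one_mem _, rfl⟩
        | cons i w =>
          rw [List.length_cons] at hw
          obtain ⟨a, ha, h2⟩ := ih w (by omega)
          obtain ⟨a', ha', h3⟩ := ih w.tail (by rw [List.length_tail]; omega)
          by_cases hi : w.head? = some i
          · refine ⟨ι i (cx h) * a - a', sub_mem (mul_mem (hsA i) ha) ha', ?_⟩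
            rw [sub_apply, mul_apply_eq_comp, h2, h3, hs, if_pos hi, add_sub_cancel_right]
          · refine ⟨ι i (cx h) * a, mul_mem (hsA i) ha, ?_⟩
            rw [mul_apply_eq_comp, h2, hs, if_neg hi, add_zero]
    let V₀ : Submodule ℂ H :=
      { carrier := {x | ∃ a ∈ A₀, a (b []) = x}
        add_mem' := by
          rintro _ _ ⟨a, ha, rfl⟩ ⟨a', ha', rfl⟩
          exact ⟨a + a', add_mem ha ha', rfl⟩
        zero_mem' := ⟨0, zero_mem _, rfl⟩
        smul_mem' := by
          rintro c _ ⟨a, ha, rfl⟩
          exact ⟨c • a, A₀.smul_mem ha c, rfl⟩ }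
    have h2 : Submodule.span ℂ (Set.range b) ≤ V₀ := by
      rw [Submodule.span_le]
      rintro _ ⟨w, rfl⟩
      exact h1 w.length w le_rfl
    have h3 : Dense (Submodule.span ℂ (Set.range b) : Set H) := by
      rw [Submodule.dense_iff_topologicalClosure_eq_top]
      exact b.dense_span
    exact h3.mono h2

/-- existence of the representation of the reduced free power -/
theorem exists_freeRep (k : ℕ) : Nonempty (FreeRep k (lp (fun _ : List (Fin k) => ℂ) 2)) :=
  exists_rep (HilbertBasis.ofRepr (LinearIsometryEquiv.refl ℂ _))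

end Pool.Agent.H54.FP
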