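import Pool.Agent.H54.FP.Alg

/-!
# [H54 FP FB] The Hilbert basis `e_w`

`e_{i w} = s_i e_w - [w starts with i] e_{tail w}`.
-/

namespace Pool.Agent.H54.FP

open Filter Topology

universe w

variable {H : Type w} [NormedAddCommGroup H] [InnerProductSpace ℂ H] [CompleteSpace H] {k : ℕ}

/-- alternating centred lists -/
def Alt (L : List (Fin k × C(unitInterval, ℂ))) : Prop :=
  L.IsChain (fun p q => p.1 ≠ q.1) ∧ ∀ p ∈ L, ∫ t, p.2 t = 0

/-- the product of a list -/
noncomputable def FreeRep.pr (F : FreeRep k H) (L : List (Fin k × C(unitInterval, ℂ))) : H →L[ℂ] H :=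
  (L.map fun p => F.ι p.1 p.2).prod

theorem pr_nil (F : FreeRep k H) : F.pr [] = 1 := rfl

theorem pr_cons (F : FreeRep k H) (p : Fin k × C(unitInterval, ℂ)) (L : List (Fin k × C(unitInterval, ℂ))) :
    F.pr (p :: L) = F.ι p.1 p.2 * F.pr L := by
  simp [FreeRep.pr]

theorem pr_append (F : FreeRep k H) (L L' : List (Fin k × C(unitInterval, ℂ))) :
    F.pr (L ++ L') = F.pr L * F.pr L' := by
  simp [FreeRep.pr]

theorem free_alt (F : FreeRep k H) {L : List (Fin k × C(unitInterval, ℂ))} (hL : L ≠ []) (h : Alt L) :
    inner ℂ F.Ω (F.pr L F.Ω) = 0 := F.free L hL h.1 h.2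

theorem ch_map {A B : Type*} [Ring A] [Ring B] (f : A →+* B) (a : A) (n : ℕ) :
    f (ch a n) = ch (f a) n := by
  induction n using Nat.twoStepInduction with
  | zero => simp [ch]
  | one => simp [ch]
  | more n h1 h2 => simp [ch, h1, h2]

theorem cx_apply (h : C(unitInterval, ℝ)) (t : unitInterval) : cx h t = (h t : ℂ) := rfl

theorem ch_cx (h : C(unitInterval, ℝ)) (n : ℕ) (t : unitInterval) :
    (ch (cx h) n) t = ((ch (h t) n : ℝ) : ℂ) := by
  induction n using Nat.twoStepInduction with
  | zero => simp [ch]
  | one => simp [ch, cx_apply]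
  | more n h1 h2 => simp [ch, h1, h2, cx_apply]

theorem ch_mean {h : C(unitInterval, ℝ)} (hh : IsSemi h) (n : ℕ) :
    ∫ t, (ch (cx h) (n + 1)) t = 0 := by
  simp only [ch_cx]
  rw [integral_complex_ofReal, hh.2 (n + 1) (by omega)]
  simp

/-- the basis vectors -/
noncomputable def FreeRep.e (F : FreeRep k H) (h : C(unitInterval, ℝ)) : List (Fin k) → H
  | [] => F.Ω
  | [i] => F.s h i F.Ω
  | i :: j :: w => F.s h i (F.e h (j :: w)) - if j = i then F.e h w else 0

theorem e_nil (F : FreeRep k H) (h : C(unitInterval, ℝ)) : F.e h [] = F.Ω := by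
  rw [FreeRep.e]

theorem e_cons (F : FreeRep k H) (h : C(unitInterval, ℝ)) (i : Fin k) (w : List (Fin k)) :
    F.e h (i :: w) = F.s h i (F.e h w) - if w.head? = some i then F.e h w.tail else 0 := by
  cases w with
  | nil => rw [FreeRep.e, FreeRep.e]; simp
  | cons j w => rw [FreeRep.e]; simp

theorem s_e (F : FreeRep k H) (h : C(unitInterval, ℝ)) (i : Fin k) (w : List (Fin k)) :
    F.s h i (F.e h w) = F.e h (i :: w) + if w.head? = some i then F.e h w.tail else 0 := by
  rw [e_cons, sub_add_cancel]

theorem e_form (F : FreeRep k H) {h : C(unitInterval, ℝ)} (hh : IsSemi h) (w : List (Fin k)) :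
    ∀ i : Fin k, ∃ (n : ℕ) (L : List (Fin k × C(unitInterval, ℂ))), Alt L ∧
      (∀ p ∈ L.head?, i ≠ p.1) ∧ F.e h (i :: w) = F.ι i (ch (cx h) (n + 1)) (F.pr L F.Ω) ∧
      F.e h w = F.ι i (ch (cx h) n) (F.pr L F.Ω) := by
  induction w with
  | nil =>
    intro i
    refine ⟨0, [], ⟨List.isChain_nil, by simp⟩, by simp, ?_, ?_⟩
    · rw [FreeRep.e, pr_nil]
      simp [ch, FreeRep.s]
    · rw [FreeRep.e, pr_nil]
      simp [ch]
  | cons j w ih =>
    intro i
    obtain ⟨n, L, hL, hL', h1, h2⟩ := ih j
    by_cases hij : j = i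
    · subst hij
      refine ⟨n + 1, L, hL, hL', ?_, h1⟩
      rw [FreeRep.e, if_pos rfl, h1, h2]
      simp only [ch, map_sub, map_mul, FreeRep.s]
      rfl
    · refine ⟨0, (j, ch (cx h) (n + 1)) :: L, ⟨?_, ?_⟩, ?_, ?_, ?_⟩
      · refine List.IsChain.cons hL.1 ?_
        intro p hp
        exact hL' p hp
      · intro p hp
        rcases List.mem_cons.1 hp with rfl | hp
        · exact ch_mean hh n
        · exact hL.2 p hp
      · intro p hp
        simp only [List.head?_cons, Option.mem_def, Option.some.injEq] at hp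
        rw [← hp]
        exact fun h => hij h.symm
      · rw [FreeRep.e, if_neg hij, sub_zero, h1, pr_cons]
        simp [ch, FreeRep.s]
      · rw [h1, pr_cons]
        simp [ch]

theorem inner_Ω_e (F : FreeRep k H) {h : C(unitInterval, ℝ)} (hh : IsSemi h) (w : List (Fin k)) :
    inner ℂ F.Ω (F.e h w) = if w = [] then 1 else 0 := by
  cases w with
  | nil =>
    rw [if_pos rfl, e_nil, inner_self_eq_norm_sq_to_K, F.norm_Ω]
    simp
  | cons i w =>
    rw [if_neg (by simp)]
    obtain ⟨n, L, hL, hL', h1, -⟩ := e_form F hh w i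
    have h2 := free_alt F (L := (i, ch (cx h) (n + 1)) :: L) (by simp) ⟨?_, ?_⟩
    · rw [pr_cons] at h2
      rw [h1]
      exact h2
    · refine List.IsChain.cons hL.1 ?_
      intro p hp
      exact hL' p hp
    · intro p hp
      rcases List.mem_cons.1 hp with rfl | hp
      · exact ch_mean hh n
      · exact hL.2 p hp

theorem s_symm (F : FreeRep k H) (h : C(unitInterval, ℝ)) (i : Fin k) (x y : H) :
    inner ℂ (F.s h i x) y = inner ℂ x (F.s h i y) := by
  rw [← star_left, star_s]

theorem inner_e (F : FreeRep k H) {h : C(unitInterval, ℝ)} (hh : IsSemi h) :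
    ∀ (n : ℕ) (v w : List (Fin k)), v.length ≤ n →
      inner ℂ (F.e h v) (F.e h w) = if v = w then (1 : ℂ) else 0 := by
  intro n
  induction n with
  | zero =>
    intro v w hv
    have : v = [] := List.eq_nil_of_length_eq_zero (by omega)
    subst this
    rw [e_nil, inner_Ω_e F hh]
    simp only [eq_comm]
  | succ n ih =>
    intro v w hv
    cases v with
    | nil => 
      rw [e_nil, inner_Ω_e F hh]
      simp only [eq_comm]
    | cons i v =>
      rw [List.length_cons] at hv
      rw [e_cons, inner_sub_left, s_symm, s_e, inner_add_right, ih v (i :: w) (by omega)]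
      have h1 : inner ℂ (F.e h v) (if w.head? = some i then F.e h w.tail else 0) =
          if w = i :: v then (1 : ℂ) else 0 := by
        cases w with
        | nil => simp
        | cons j w =>
          by_cases hj : j = i
          · subst hj
            simp only [List.head?_cons, if_true, List.tail_cons]
            rw [ih v w (by omega)]
            by_cases hvw : v = w
            · simp [hvw]
            · rw [if_neg hvw, if_neg (by simpa using fun h => hvw h.symm)]
          · simp [hj]
      have h2 : inner ℂ (if v.head? = some i then F.e h v.tail else 0) (F.e h w) =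
          if v = i :: w then (1 : ℂ) else 0 := by
        cases v with
        | nil => simp
        | cons j v =>
          by_cases hj : j = i
          · subst hj
            simp only [List.head?_cons, if_true, List.tail_cons]
            rw [ih v w (by rw [List.length_cons] at hv; omega)]
            by_cases hvw : v = w
            · simp [hvw]
            · rw [if_neg hvw, if_neg (by simpa using hvw)]
          · simp [hj]
      rw [h1, h2]
      simp only [eq_comm]
      ring

theorem e_orthonormal (F : FreeRep k H) {h : C(unitInterval, ℝ)} (hh : IsSemi h) :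
    Orthonormal ℂ (F.e h) := by
  rw [orthonormal_iff_ite]
  intro v w
  exact inner_e F hh v.length v w le_rfl

theorem e_span (F : FreeRep k H) {h : C(unitInterval, ℝ)} (hh : IsSemi h) :
    (Submodule.span ℂ (Set.range (F.e h))).topologicalClosure = ⊤ := by
  refine cyclic_s F hh.1 _ (Submodule.isClosed_topologicalClosure _) ?_ ?_
  · refine Submodule.le_topologicalClosure _ (Submodule.subset_span ⟨[], e_nil F h⟩)
  · intro i x hx
    have h1 : Submodule.span ℂ (Set.range (F.e h)) ≤ (Submodule.span ℂ (Set.range (F.e h))).comap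
        (F.s h i : H →ₗ[ℂ] H) := by
      rw [Submodule.span_le]
      rintro _ ⟨w, rfl⟩
      change F.s h i (F.e h w) ∈ Submodule.span ℂ (Set.range (F.e h))
      rw [s_e]
      refine Submodule.add_mem _ (Submodule.subset_span ⟨_, rfl⟩) ?_
      split_ifs
      · exact Submodule.subset_span ⟨_, rfl⟩
      · exact Submodule.zero_mem _
    have h2 : IsClosed {x : H | F.s h i x ∈ (Submodule.span ℂ (Set.range (F.e h))).topologicalClosure} :=
      (Submodule.isClosed_topologicalClosure _).preimage (F.s h i).continuous
    refine closure_minimal ?_ h2 hx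
    intro z hz
    exact Submodule.le_topologicalClosure _ (h1 hz)

/-- the Hilbert basis -/
noncomputable def FreeRep.basis (F : FreeRep k H) {h : C(unitInterval, ℝ)} (hh : IsSemi h) :
    HilbertBasis (List (Fin k)) ℂ H :=
  HilbertBasis.mk (e_orthonormal F hh) (e_span F hh).ge

theorem basis_apply (F : FreeRep k H) {h : C(unitInterval, ℝ)} (hh : IsSemi h) (w : List (Fin k)) :
    F.basis hh w = F.e h w := by
  rw [FreeRep.basis, HilbertBasis.coe_mk]

end Pool.Agent.H54.FP
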