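import Pool.Agent.H54.FP.Imp
import Pool.Agent.H54.FP.Cpt
import Pool.Agent.H54.FP.Exj

/-!
# [H54 FP GD] Definitions for the final statement, and the statement with them
-/

namespace Pool.Agent.H54.FP

universe w w'

/-- the representation of the reduced free power exists -/
def RepExists (k : ℕ) : Prop := ∃ (H : Type) (_ : NormedAddCommGroup H) (_ : InnerProductSpace ℂ H)
  (_ : CompleteSpace H), Nonempty (FreeRep k H)

/-- the bounded operators of a Hilbert space -/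
abbrev Op (H : Type w) [NormedAddCommGroup H] [InnerProductSpace ℂ H] : Type w := H →L[ℂ] H

/-- all commutators `[y_j, S_i]` are trace class -/
def TraceComm {H : Type w} [NormedAddCommGroup H] [InnerProductSpace ℂ H] {m n : ℕ} (y : Fin m → Op H)
    (S : Fin n → Op H) : Prop :=
  ∀ j i, IsTraceClass (y j * S i - S i * y j)

variable {H : Type w} [NormedAddCommGroup H] [InnerProductSpace ℂ H] [CompleteSpace H] {k : ℕ}

/-- the set of the elements of `F.alg` -/
noncomputable def FreeRep.A (F : FreeRep k H) : Set (Op H) := F.alg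

/-- `x` is a tuple of elements of the algebra which generates it as a closed algebra and has the dual system `R` -/
def FreeRep.GenDual (F : FreeRep k H) {m : ℕ} (x R : Fin m → Op H) : Prop :=
  IsDual F.Ω x R ∧ (∀ j, x j ∈ F.A) ∧ ∀ a ∈ F.A, a ∈ closure (Algebra.adjoin ℂ (Set.range x) : Set (Op H))

/-- all `[a, S_i]`, `a` in the algebra, are compact, and for a dense set of `a` they are trace class -/
def FreeRep.Toeplitz (F : FreeRep k H) {n : ℕ} (S : Fin n → Op H) : Prop :=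
  (∀ a ∈ F.A, ∀ i, IsCompactOperator (a * S i - S i * a)) ∧
    ∀ a ∈ F.A, ∀ ε > 0, ∃ b ∈ F.A, ‖a - b‖ < ε ∧ ∀ i, IsTraceClass (b * S i - S i * b)

variable {K : Type w'} [NormedAddCommGroup K] [InnerProductSpace ℂ K] [CompleteSpace K] {l : ℕ}

/-- `Φ` is a *-isomorphism from `A` onto `B` -/
structure IsStarIso (A : Set (Op K)) (B : Set (Op H)) (Φ : Op K → Op H) : Prop where
  bij : Set.BijOn Φ A B
  map_add : ∀ a ∈ A, ∀ b ∈ A, Φ (a + b) = Φ a + Φ b
  map_mul : ∀ a ∈ A, ∀ b ∈ A, Φ (a * b) = Φ a * Φ b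
  map_smul : ∀ c : ℂ, ∀ a ∈ A, Φ (c • a) = c • Φ a
  map_star : ∀ a ∈ A, Φ (star a) = star (Φ a)

theorem gd_rep (k : ℕ) : RepExists k := ⟨_, _, _, _, exists_freeRep k⟩

theorem gd_exists (F : FreeRep k H) {h : C(unitInterval, ℝ)} (hh : IsSemi h) :
    ∃ S : Fin k → Op H, F.GenDual (F.s h) S ∧ F.Toeplitz S := by
  obtain ⟨S, -, hS⟩ := exists_creation F hh
  refine ⟨S, ⟨hS, s_mem F h, fun a ha => ?_⟩, fun a ha i => cpt F hh.1 hS ha i,
    fun a ha ε hε => tc_dense F hh.1 hS ha hε⟩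
  rw [← Subalgebra.topologicalClosure_coe]
  exact gen_s F hh.1 a ha

theorem gd_iso {F : FreeRep k H} {G : FreeRep l K} {Φ : Op K → Op H} (hΦ : IsStarIso G.A F.A Φ) :
    ∃ Ψ : G.alg ≃⋆ₐ[ℂ] F.alg, ∀ a : G.alg, (Ψ a : Op H) = Φ a := by
  let f : G.alg → F.alg := fun a => ⟨Φ a, hΦ.bij.mapsTo a.2⟩
  have hf : Function.Bijective f := by
    refine ⟨fun a b hab => Subtype.ext (hΦ.bij.injOn a.2 b.2 (congrArg Subtype.val hab)), fun b => ?_⟩
    obtain ⟨a, ha, hab⟩ := hΦ.bij.surjOn b.2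
    exact ⟨⟨a, ha⟩, Subtype.ext hab⟩
  refine ⟨{ Equiv.ofBijective f hf with
    map_mul' := fun a b => Subtype.ext (hΦ.map_mul a a.2 b b.2)
    map_add' := fun a b => Subtype.ext (hΦ.map_add a a.2 b b.2)
    map_star' := fun a => Subtype.ext (hΦ.map_star a a.2)
    map_smul' := fun c a => Subtype.ext (hΦ.map_smul c a a.2) }, fun a => rfl⟩

theorem gd_main (hl : 2 ≤ l) (F : FreeRep k H) (G : FreeRep l K) {m n : ℕ} {x R : Fin m → Op K}
    {y S : Fin n → Op H} (hx : G.GenDual x R) (hy : F.GenDual y S) {Φ : Op K → Op H}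
    (hΦ : IsStarIso G.A F.A Φ) (hT : TraceComm (fun j => Φ (x j)) S) : m = n := by
  obtain ⟨Ψ, hΨ⟩ := gd_iso hΦ
  refine main_gen hl F G Ψ (fun j => ⟨x j, hx.2.1 j⟩) R hx.1 (fun a ha => ?_)
    (fun i => ⟨y i, hy.2.1 i⟩) S hy.1 (fun a ha => ?_) (fun j i => ?_)
  · have h1 := hx.2.2 a ha
    rw [← Subalgebra.topologicalClosure_coe] at h1
    exact h1
  · have h1 := hy.2.2 a ha
    rw [← Subalgebra.topologicalClosure_coe] at h1
    exact h1
  · have h1 := hT j i
    have h2 := hΨ ⟨x j, hx.2.1 j⟩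
    rw [h2]
    exact h1

end Pool.Agent.H54.FP
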