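import Pool.Agent.H54.FP.Cre
import Pool.Agent.H54.FP.Cra

/-!
# [H54 FP TRA] The vector state of `Ω` is a trace

`S_i + S_i*` commutes with the `s_j` and maps `Ω` to `s_i Ω`.
-/

namespace Pool.Agent.H54.FP

open Filter Topology

universe w

variable {H : Type w} [NormedAddCommGroup H] [InnerProductSpace ℂ H] [CompleteSpace H] {k : ℕ}

theorem star_rk (Ω : H) : star (rk Ω Ω) = rk Ω Ω := by
  ext x
  refine ext_inner_right ℂ fun y => ?_
  rw [star_left, rk_apply, rk_apply, inner_smul_right, inner_smul_left, inner_conj_symm]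
  ring

theorem isTraceVec (F : FreeRep k H) {h : C(unitInterval, ℝ)} (hh : IsSemi h) :
    IsTraceVec F.alg F.Ω := by
  obtain ⟨S, hS, hD⟩ := exists_creation F hh
  have hcomm : ∀ i j, (S i + star (S i)) * F.s h j = F.s h j * (S i + star (S i)) := by
    intro i j
    have h1 := hD i j
    have h2 := congrArg star h1
    rw [star_sub, star_mul, star_mul, star_s] at h2
    have h3 : star (if i = j then rk F.Ω F.Ω else 0 : H →L[ℂ] H) =
        (if i = j then rk F.Ω F.Ω else 0) := by
      split_ifs
      · exact star_rk _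
      · exact star_zero _
    rw [h3, ← h1] at h2
    have h4 : star (S i) * F.s h j - F.s h j * star (S i) - (F.s h j * S i - S i * F.s h j) = 0 := by
      rw [h2, sub_self]
    have h5 : (S i + star (S i)) * F.s h j - F.s h j * (S i + star (S i)) = 0 := by
      rw [← h4]
      noncomm_ring
    exact sub_eq_zero.1 h5
  have hcomm' : ∀ i, ∀ a ∈ F.alg, (S i + star (S i)) * a = a * (S i + star (S i)) := by
    intro i
    let M : Subalgebra ℂ (H →L[ℂ] H) := Subalgebra.centralizer ℂ {S i + star (S i)}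
    have hM : IsClosed (M : Set (H →L[ℂ] H)) := by
      have h1 : (M : Set (H →L[ℂ] H)) = {a | (S i + star (S i)) * a = a * (S i + star (S i))} := by
        ext a
        change a ∈ Subalgebra.centralizer ℂ {S i + star (S i)} ↔ _
        rw [Subalgebra.mem_centralizer_iff]
        simp
      rw [h1]
      exact isClosed_eq (by fun_prop) (by fun_prop)
    intro a ha
    have h1 := alg_le_s F hh.1 M hM (fun j => by
      rw [Subalgebra.mem_centralizer_iff]
      rintro _ rfl
      exact hcomm i j) a ha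
    rw [Subalgebra.mem_centralizer_iff] at h1
    exact h1 _ rfl
  have hΩ : ∀ i, (S i + star (S i)) F.Ω = F.s h i F.Ω := by
    intro i
    have h1 : (star (S i)) F.Ω = 0 := by
      have h2 := (F.basis hh).hasSum_repr ((star (S i)) F.Ω)
      have h3 : ∀ w, (F.basis hh).repr ((star (S i)) F.Ω) w • (F.basis hh) w = 0 := by
        intro w
        rw [(F.basis hh).repr_apply_apply, basis_apply, star_right, hS, ← inner_conj_symm,
          inner_Ω_e F hh, if_neg (by simp)]
        simp
      simp only [h3] at h2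
      exact h2.unique hasSum_zero
    rw [add_apply, h1, add_zero, ← e_nil F h, hS, List.nil_append, e_cons]
    simp [e_nil]
  have hgen : ∀ i, ∀ a ∈ F.alg, tau F.Ω (a * F.s h i) = tau F.Ω (F.s h i * a) := by
    intro i a ha
    rw [tau_apply, tau_apply, mul_apply_eq_comp, mul_apply_eq_comp, ← hΩ i, ← mul_apply_eq_comp a,
      ← hcomm' i a ha, mul_apply_eq_comp, ← s_symm, ← hΩ i, ← star_right, star_add, star_star,
      add_comm (star (S i))]
  let M : Subalgebra ℂ (H →L[ℂ] H) :=
    { carrier := {b | b ∈ F.alg ∧ ∀ a ∈ F.alg, tau F.Ω (a * b) = tau F.Ω (b * a)}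
      mul_mem' := by
        rintro b b' ⟨hb, hb1⟩ ⟨hb', hb1'⟩
        refine ⟨mul_mem hb hb', fun a ha => ?_⟩
        rw [← mul_assoc, hb1' _ (mul_mem ha hb), ← mul_assoc, hb1 _ (mul_mem hb' ha), mul_assoc]
      add_mem' := by
        rintro b b' ⟨hb, hb1⟩ ⟨hb', hb1'⟩
        refine ⟨add_mem hb hb', fun a ha => ?_⟩
        rw [mul_add, add_mul, map_add, map_add, hb1 a ha, hb1' a ha]
      algebraMap_mem' := fun r => ⟨F.alg.algebraMap_mem r, fun a _ => by rw [Algebra.commutes]⟩ }
  have hM : IsClosed (M : Set (H →L[ℂ] H)) := by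
    have h1 : (M : Set (H →L[ℂ] H)) = (F.alg : Set (H →L[ℂ] H)) ∩
        ⋂ a ∈ F.alg, {b | tau F.Ω (a * b) = tau F.Ω (b * a)} := by
      ext b
      simp [M]
    rw [h1]
    exact (alg_isClosed F).inter (isClosed_biInter fun a _ => isClosed_eq (by fun_prop) (by fun_prop))
  refine ⟨F.norm_Ω, alg_cyclic F, fun a ha b hb => ?_⟩
  exact (alg_le_s F hh.1 M hM (fun i => ⟨s_mem F h i, hgen i⟩) b hb).2 a ha

end Pool.Agent.H54.FP
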