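import Pool.Agent.H54.FP.Unb
import Pool.Agent.H54.FP.Tra
import Pool.Agent.H54.FP.Core

/-!
# [H54 FP IMP] Isomorphisms are spatial; the theorem for two generating tuples
-/

namespace Pool.Agent.H54.FP

open Filter Topology MeasureTheory

universe w w'

variable {H : Type w} [NormedAddCommGroup H] [InnerProductSpace ℂ H] [CompleteSpace H]
  {K : Type w'} [NormedAddCommGroup K] [InnerProductSpace ℂ K] [CompleteSpace K] {k l : ℕ}

theorem isTraceVec' (F : FreeRep k H) : IsTraceVec F.alg F.Ω := by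
  obtain ⟨h, hh⟩ := exists_semi
  exact isTraceVec F hh

/-- an isomorphism does not increase norms -/
theorem iso_norm (F : FreeRep k H) (G : FreeRep l K) (Φ : G.alg ≃⋆ₐ[ℂ] F.alg) (a : G.alg) :
    ‖Φ a‖ ≤ ‖a‖ := by
  have h1 : IsClosed (F.alg : Set (H →L[ℂ] H)) := alg_isClosed F
  have h2 : IsClosed (G.alg : Set (K →L[ℂ] K)) := alg_isClosed G
  exact NonUnitalStarAlgHom.norm_apply_le Φ a

/-- an isomorphism preserves the vector states -/
theorem iso_state (hl : 2 ≤ l) (F : FreeRep k H) (G : FreeRep l K) (Φ : G.alg ≃⋆ₐ[ℂ] F.alg)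
    (a : G.alg) : inner ℂ F.Ω ((Φ a : H →L[ℂ] H) F.Ω) = inner ℂ G.Ω ((a : K →L[ℂ] K) G.Ω) := by
  let φ : G.alg →L[ℂ] ℂ := LinearMap.mkContinuous
    { toFun := fun a => inner ℂ F.Ω ((Φ a : H →L[ℂ] H) F.Ω)
      map_add' := fun a b => by simp
      map_smul' := fun c a => by simp } 1 (fun a => by
        change ‖inner ℂ F.Ω ((Φ a : H →L[ℂ] H) F.Ω)‖ ≤ 1 * ‖a‖
        refine (norm_inner_le_norm _ _).trans ?_
        rw [F.norm_Ω, one_mul, one_mul]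
        refine ((Φ a : H →L[ℂ] H).le_opNorm _).trans ?_
        rw [F.norm_Ω, mul_one]
        exact iso_norm F G Φ a)
  have h1 : ∀ a, φ a = inner ℂ F.Ω ((Φ a : H →L[ℂ] H) F.Ω) := fun a => rfl
  rw [← h1]
  refine uni hl G φ ?_ ?_ a
  · rw [h1, map_one]
    change inner ℂ F.Ω F.Ω = 1
    rw [inner_self_eq_norm_sq_to_K, F.norm_Ω]
    simp
  · intro a b
    rw [h1, h1, map_mul, map_mul]
    exact (isTraceVec' F).trace _ (Φ a).2 _ (Φ b).2

theorem imp (hl : 2 ≤ l) (F : FreeRep k H) (G : FreeRep l K) (Φ : G.alg ≃⋆ₐ[ℂ] F.alg) :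
    ∃ W : K ≃ₗᵢ[ℂ] H, W G.Ω = F.Ω ∧ ∀ a : G.alg, (Φ a : H →L[ℂ] H) = W.conjStarAlgEquiv a := by
  have hF := isTraceVec' F
  have hG := isTraceVec' G
  let e₁ : G.alg →ₗ[ℂ] K :=
    { toFun := fun a => (a : K →L[ℂ] K) G.Ω
      map_add' := fun a b => by simp
      map_smul' := fun c a => by simp }
  let e₂ : F.alg →ₗ[ℂ] H :=
    { toFun := fun a => (a : H →L[ℂ] H) F.Ω
      map_add' := fun a b => by simp
      map_smul' := fun c a => by simp }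
  let f : G.alg ≃ₗ[ℂ] F.alg := (Φ : G.alg ≃⋆ₐ[ℂ] F.alg).toAlgEquiv.toLinearEquiv
  have hf : ∀ a, f a = Φ a := fun a => rfl
  have hn : ∀ a : G.alg, ‖e₂ (f a)‖ = ‖e₁ a‖ := by
    intro a
    have h1 := iso_state hl F G Φ (star a * a)
    rw [map_mul, map_star] at h1
    change inner ℂ F.Ω ((star (Φ a : H →L[ℂ] H)) ((Φ a : H →L[ℂ] H) F.Ω)) =
      inner ℂ G.Ω ((star (a : K →L[ℂ] K)) ((a : K →L[ℂ] K) G.Ω)) at h1
    rw [star_right, star_right, inner_self_eq_norm_sq_to_K, inner_self_eq_norm_sq_to_K] at h1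
    have h3 : ‖(Φ a : H →L[ℂ] H) F.Ω‖ ^ 2 = ‖(a : K →L[ℂ] K) G.Ω‖ ^ 2 := by exact_mod_cast h1
    exact (sq_eq_sq₀ (norm_nonneg _) (norm_nonneg _)).1 h3
  have hd₁ : DenseRange e₁ := denseRange_vec hG
  have hd₂ : DenseRange e₂ := denseRange_vec hF
  have hn₁ : ∃ C, ∀ x, ‖e₂ (f x)‖ ≤ C * ‖e₁ x‖ := ⟨1, fun a => by rw [one_mul, hn]⟩
  have hn₂ : ∃ C, ∀ x, ‖e₁ (f.symm x)‖ ≤ C * ‖e₂ x‖ := ⟨1, fun a => by
    rw [one_mul, ← hn, LinearEquiv.apply_symm_apply]⟩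
  let W₀ : K ≃L[ℂ] H := f.extend e₁ e₂ hd₁ hn₁ hd₂ hn₂
  have hW₀ : ∀ a : G.alg, W₀ ((a : K →L[ℂ] K) G.Ω) = (Φ a : H →L[ℂ] H) F.Ω := fun a =>
    LinearEquiv.extend_eq f e₁ e₂ hd₁ hn₁ hd₂ hn₂ a
  have hWn : ∀ x, ‖W₀ x‖ = ‖x‖ := by
    intro x
    refine hd₁.induction_on (p := fun x => ‖W₀ x‖ = ‖x‖) x (isClosed_eq (by fun_prop) (by fun_prop)) ?_
    intro a
    change ‖W₀ ((a : K →L[ℂ] K) G.Ω)‖ = ‖(a : K →L[ℂ] K) G.Ω‖
    rw [hW₀]
    exact hn a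
  let W : K ≃ₗᵢ[ℂ] H := { W₀.toLinearEquiv with norm_map' := hWn }
  have hW : ∀ x, W x = W₀ x := fun x => rfl
  refine ⟨W, ?_, fun a => ?_⟩
  · have h1 := hW₀ 1
    rw [map_one] at h1
    exact h1
  · ext x
    rw [LinearIsometryEquiv.conjStarAlgEquiv_apply_apply]
    obtain ⟨y, rfl⟩ := W.surjective x
    rw [LinearIsometryEquiv.symm_apply_apply]
    refine hd₁.induction_on (p := fun y => (Φ a : H →L[ℂ] H) (W y) = W ((a : K →L[ℂ] K) y)) y
      (isClosed_eq (by fun_prop) (by fun_prop)) ?_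
    intro b
    change (Φ a : H →L[ℂ] H) (W₀ ((b : K →L[ℂ] K) G.Ω)) = W₀ ((a : K →L[ℂ] K) ((b : K →L[ℂ] K) G.Ω))
    have h1 := hW₀ (a * b)
    rw [map_mul] at h1
    rw [hW₀ b]
    exact h1.symm

theorem conj_rk (W : K ≃ₗᵢ[ℂ] H) (u v : K) : W.conjStarAlgEquiv (rk u v) = rk (W u) (W v) := by
  ext x
  rw [LinearIsometryEquiv.conjStarAlgEquiv_apply_apply, rk_apply, rk_apply, map_smul]
  congr 1
  rw [← W.inner_map_map, LinearIsometryEquiv.apply_symm_apply]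

theorem conj_cont (W : K ≃ₗᵢ[ℂ] H) : Continuous W.conjStarAlgEquiv := by
  refine AddMonoidHomClass.continuous_of_bound W.conjStarAlgEquiv 1 fun f => ?_
  rw [one_mul]
  exact NonUnitalStarAlgHom.norm_apply_le W.conjStarAlgEquiv f

/-- the main theorem: generating tuples with dual systems of isomorphic reduced free powers -/
theorem main_gen (hl : 2 ≤ l) (F : FreeRep k H) (G : FreeRep l K)
    (Φ : G.alg ≃⋆ₐ[ℂ] F.alg) {m n : ℕ} (x : Fin m → G.alg) (R : Fin m → (K →L[ℂ] K))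
    (hR : IsDual G.Ω (fun j => (x j : K →L[ℂ] K)) R)
    (hx : ∀ a ∈ G.alg, a ∈ (Algebra.adjoin ℂ (Set.range fun j => (x j : K →L[ℂ] K))).topologicalClosure)
    (y : Fin n → F.alg) (S : Fin n → (H →L[ℂ] H))
    (hS : IsDual F.Ω (fun i => (y i : H →L[ℂ] H)) S)
    (hy : ∀ a ∈ F.alg, a ∈ (Algebra.adjoin ℂ (Set.range fun i => (y i : H →L[ℂ] H))).topologicalClosure)
    (hT : ∀ j i, IsTraceClass ((Φ (x j) : H →L[ℂ] H) * S i - S i * (Φ (x j) : H →L[ℂ] H))) :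
    m = n := by
  obtain ⟨W, hWΩ, hW⟩ := imp hl F G Φ
  have hR' : IsDual F.Ω (fun j => (Φ (x j) : H →L[ℂ] H)) (fun j => W.conjStarAlgEquiv (R j)) := by
    intro i j
    change (Φ (x j) : H →L[ℂ] H) * W.conjStarAlgEquiv (R i) -
      W.conjStarAlgEquiv (R i) * (Φ (x j) : H →L[ℂ] H) = _
    rw [hW, ← map_mul, ← map_mul, ← map_sub]
    have h1 := hR i j
    change (x j : K →L[ℂ] K) * R i - R i * (x j : K →L[ℂ] K) = _ at h1
    rw [h1]
    split_ifs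
    · rw [conj_rk, hWΩ]
    · exact map_zero _
  refine core (isTraceVec' F) (x := fun j => (Φ (x j) : H →L[ℂ] H)) (y := fun i => (y i : H →L[ℂ] H))
    (fun j => (Φ (x j)).2) (fun i => (y i).2) hR' hS (fun j => hy _ (Φ (x j)).2) ?_ hT
  intro i
  have h1 : (y i : H →L[ℂ] H) = W.conjStarAlgEquiv ((Φ.symm (y i) : G.alg) : K →L[ℂ] K) := by
    rw [← hW, StarAlgEquiv.apply_symm_apply]
  change (y i : H →L[ℂ] H) ∈ _
  rw [h1]
  have h2 := hx _ (Φ.symm (y i)).2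
  have h3 : ((Φ.symm (y i) : G.alg) : K →L[ℂ] K) ∈ closure ((Algebra.adjoin ℂ
      (Set.range fun j => (x j : K →L[ℂ] K)) : Subalgebra ℂ (K →L[ℂ] K)) : Set (K →L[ℂ] K)) := by
    rw [← Subalgebra.topologicalClosure_coe]
    exact h2
  have h4 : IsClosed {T : K →L[ℂ] K | W.conjStarAlgEquiv T ∈
      (Algebra.adjoin ℂ (Set.range fun j => (Φ (x j) : H →L[ℂ] H))).topologicalClosure} :=
    (Subalgebra.isClosed_topologicalClosure _).preimage (conj_cont W)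
  refine closure_minimal ?_ h4 h3
  intro T hT'
  have h5 : Algebra.adjoin ℂ (Set.range fun j => (x j : K →L[ℂ] K)) ≤
      (Algebra.adjoin ℂ (Set.range fun j => (Φ (x j) : H →L[ℂ] H))).comap
        W.conjStarAlgEquiv.toAlgEquiv.toAlgHom := by
    refine Algebra.adjoin_le ?_
    rintro _ ⟨j, rfl⟩
    change W.conjStarAlgEquiv (x j : K →L[ℂ] K) ∈ Algebra.adjoin ℂ _
    rw [← hW]
    exact Algebra.subset_adjoin ⟨j, rfl⟩
  exact Subalgebra.le_topologicalClosure _ (h5 hT')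

end Pool.Agent.H54.FP
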