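import Pool.Agent.H54.FP.Defs

/-!
# [H54 FP JOP] The conjugation of a trace vector

`J (a Ω) = a* Ω` extends to an antiunitary involution of `H`.
-/

namespace Pool.Agent.H54.FP

open Filter Topology

universe w

variable {H : Type w} [NormedAddCommGroup H] [InnerProductSpace ℂ H] [CompleteSpace H]

theorem star_left (a : H →L[ℂ] H) (x y : H) : inner ℂ ((star a) x) y = inner ℂ x (a y) := by
  rw [ContinuousLinearMap.star_eq_adjoint, ContinuousLinearMap.adjoint_inner_left]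

theorem star_right (a : H →L[ℂ] H) (x y : H) : inner ℂ x ((star a) y) = inner ℂ (a x) y := by
  rw [ContinuousLinearMap.star_eq_adjoint, ContinuousLinearMap.adjoint_inner_right]

theorem norm_star_vec {A : StarSubalgebra ℂ (H →L[ℂ] H)} {Ω : H} (hA : IsTraceVec A Ω)
    {a : H →L[ℂ] H} (ha : a ∈ A) : ‖(star a) Ω‖ = ‖a Ω‖ := by
  have h1 : inner ℂ ((star a) Ω) ((star a) Ω) = (inner ℂ (a Ω) (a Ω) : ℂ) := by
    rw [star_left]
    have h2 := hA.trace a ha (star a) (star_mem ha)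
    rw [mul_apply_eq_comp, mul_apply_eq_comp, star_right] at h2
    exact h2
  rw [inner_self_eq_norm_sq_to_K, inner_self_eq_norm_sq_to_K] at h1
  have h3 : ‖(star a) Ω‖ ^ 2 = ‖a Ω‖ ^ 2 := by exact_mod_cast h1
  exact (sq_eq_sq₀ (norm_nonneg _) (norm_nonneg _)).1 h3

theorem jop {A : StarSubalgebra ℂ (H →L[ℂ] H)} {Ω : H} (hA : IsTraceVec A Ω) :
    ∃ J : H →SL[starRingEnd ℂ] H, (∀ a ∈ A, J (a Ω) = (star a) Ω) ∧
      (∀ ξ η, inner ℂ (J ξ) η = inner ℂ (J η) ξ) ∧ (∀ ξ, ‖J ξ‖ = ‖ξ‖) ∧ ∀ ξ, J (J ξ) = ξ := by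
  let e : A →ₗ[ℂ] H :=
    { toFun := fun a => (a : H →L[ℂ] H) Ω
      map_add' := fun a b => by simp
      map_smul' := fun c a => by simp }
  let f : A →ₛₗ[starRingEnd ℂ] H :=
    { toFun := fun a => (star (a : H →L[ℂ] H)) Ω
      map_add' := fun a b => by simp
      map_smul' := fun c a => by simp }
  have hd : DenseRange e := by
    refine hA.cyclic.mono ?_
    rintro x ⟨a, ha, rfl⟩
    exact ⟨⟨a, ha⟩, rfl⟩
  have hn : ∀ a : A, ‖f a‖ ≤ 1 * ‖e a‖ := fun a => by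
    rw [one_mul]
    exact (norm_star_vec hA a.2).le
  have h1 : ∀ a ∈ A, (f.extendOfNorm e) (a Ω) = (star a) Ω := fun a ha =>
    LinearMap.extendOfNorm_eq hd ⟨1, hn⟩ (⟨a, ha⟩ : A)
  set J := f.extendOfNorm e with hJ
  refine ⟨J, h1, fun ξ η => ?_, fun ξ => ?_, fun ξ => ?_⟩
  · refine hd.induction_on₂ (p := fun ξ η => inner ℂ (J ξ) η = inner ℂ (J η) ξ)
      (isClosed_eq (by fun_prop) (by fun_prop)) ?_ ξ η
    intro a b
    change inner ℂ (J ((a : H →L[ℂ] H) Ω)) ((b : H →L[ℂ] H) Ω) =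
      inner ℂ (J ((b : H →L[ℂ] H) Ω)) ((a : H →L[ℂ] H) Ω)
    rw [h1 a a.2, h1 b b.2, star_left, star_left]
    exact hA.trace a a.2 b b.2
  · refine hd.induction_on (p := fun ξ => ‖J ξ‖ = ‖ξ‖) ξ
      (isClosed_eq (by fun_prop) (by fun_prop)) ?_
    intro a
    change ‖J ((a : H →L[ℂ] H) Ω)‖ = ‖(a : H →L[ℂ] H) Ω‖
    rw [h1 a a.2]
    exact norm_star_vec hA a.2
  · refine hd.induction_on (p := fun ξ => J (J ξ) = ξ) ξ
      (isClosed_eq (by fun_prop) (by fun_prop)) ?_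
    intro a
    change J (J ((a : H →L[ℂ] H) Ω)) = (a : H →L[ℂ] H) Ω
    rw [h1 a a.2, h1 _ (star_mem a.2), star_star]

end Pool.Agent.H54.FP
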