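import Pool.Agent.H54.FP.Jop

/-!
# [H54 FP POW] The inequality of Powers

`v` unitary, `v^n E ⊥ E` for `n ≥ 1`, `b` maps the orthogonal complement of `E` into `E`. Then
`‖∑_{n<N} v^n b v^{-n}‖ ≤ 2 √N ‖b‖`.
-/

namespace Pool.Agent.H54.FP

open Filter Topology

universe w

variable {H : Type w} [NormedAddCommGroup H] [InnerProductSpace ℂ H]

theorem norm_sum_orth (a : ℕ → H) (ha : ∀ m n, m < n → inner ℂ (a m) (a n) = 0) (N : ℕ) :
    ‖∑ n ∈ Finset.range N, a n‖ ^ 2 = ∑ n ∈ Finset.range N, ‖a n‖ ^ 2 := by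
  induction N with
  | zero => simp
  | succ N ih =>
    rw [Finset.sum_range_succ, Finset.sum_range_succ, ← ih]
    have h1 : inner ℂ (∑ n ∈ Finset.range N, a n) (a N) = 0 := by
      rw [sum_inner]
      exact Finset.sum_eq_zero fun m hm => ha m N (Finset.mem_range.1 hm)
    have h2 := norm_add_sq_eq_norm_sq_add_norm_sq_of_inner_eq_zero _ _ h1
    nlinarith [h2]

variable [CompleteSpace H]

theorem powers (E : Submodule ℂ H) [E.HasOrthogonalProjection] (v b : H →L[ℂ] H)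
    (hv : star v * v = 1) (hv' : v * star v = 1)
    (hE : ∀ n : ℕ, 1 ≤ n → ∀ x ∈ E, ∀ y ∈ E, inner ℂ x ((v ^ n) y) = 0)
    (hb : ∀ x ∈ Eᗮ, b x ∈ E) (N : ℕ) :
    ‖∑ n ∈ Finset.range N, v ^ n * b * (star v) ^ n‖ ≤ 2 * Real.sqrt N * ‖b‖ := by
  have hvn : ∀ n : ℕ, star (v ^ n) * v ^ n = 1 := by
    intro n
    induction n with
    | zero => simp
    | succ n ih =>
      rw [pow_succ, star_mul, mul_assoc, ← mul_assoc (star (v ^ n)), ih, one_mul, hv]
  have hvn' : ∀ n : ℕ, v ^ n * star (v ^ n) = 1 := by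
    intro n
    induction n with
    | zero => simp
    | succ n ih =>
      rw [pow_succ', star_mul, mul_assoc, ← mul_assoc (v ^ n), ih, one_mul, hv']
  have hin : ∀ (n : ℕ) (x y : H), inner ℂ ((v ^ n) x) ((v ^ n) y) = inner ℂ x y := by
    intro n x y
    rw [← star_right, ← mul_apply_eq_comp, hvn]
    rfl
  have hnorm : ∀ (n : ℕ) (x : H), ‖(v ^ n) x‖ = ‖x‖ := by
    intro n x
    have h1 := hin n x x
    rw [inner_self_eq_norm_sq_to_K, inner_self_eq_norm_sq_to_K] at h1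
    have h3 : ‖(v ^ n) x‖ ^ 2 = ‖x‖ ^ 2 := by exact_mod_cast h1
    exact (sq_eq_sq₀ (norm_nonneg _) (norm_nonneg _)).1 h3
  have hnorm' : ∀ (n : ℕ) (x : H), ‖(star v ^ n) x‖ = ‖x‖ := by
    intro n x
    rw [← hnorm n, ← mul_apply_eq_comp, ← star_pow, hvn']
    rfl
  have horth : ∀ m n : ℕ, m < n → ∀ x ∈ E, ∀ y ∈ E, inner ℂ ((v ^ m) x) ((v ^ n) y) = 0 := by
    intro m n hmn x hx y hy
    obtain ⟨k, rfl⟩ := Nat.exists_eq_add_of_le hmn.le
    rw [pow_add, mul_apply_eq_comp, hin]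
    exact hE k (by omega) x hx y hy
  refine ContinuousLinearMap.opNorm_le_bound _ (by positivity) fun x => ?_
  set e := E.starProjection with he
  have heE : ∀ z, e z ∈ E := fun z => E.starProjection_apply_mem z
  have heO : ∀ z, z - e z ∈ Eᗮ := fun z => E.sub_starProjection_mem_orthogonal z
  set wv : ℕ → H := fun n => (star v ^ n) x with hw
  set a : ℕ → H := fun n => (v ^ n) (b (wv n - e (wv n))) with ha
  set p : ℕ → H := fun n => (v ^ n) (e (wv n)) with hp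
  have h1 : ∀ n, (v ^ n * b * (star v) ^ n) x = (v ^ n) (b (e (wv n))) + a n := by
    intro n
    rw [ha, ← map_add, ← map_add, add_sub_cancel]
    rfl
  have ha1 : ‖∑ n ∈ Finset.range N, a n‖ ≤ Real.sqrt N * ‖b‖ * ‖x‖ := by
    have h2 := norm_sum_orth a (fun m n hmn => horth m n hmn _ (hb _ (heO _)) _ (hb _ (heO _))) N
    have h3 : ∀ n, ‖a n‖ ≤ ‖b‖ * ‖x‖ := by
      intro n
      rw [ha]
      simp only [hnorm]
      refine (b.le_opNorm _).trans (mul_le_mul_of_nonneg_left ?_ (norm_nonneg _))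
      have h4 : ‖wv n - e (wv n)‖ ≤ ‖wv n‖ := by
        have h5 := norm_add_sq_eq_norm_sq_add_norm_sq_of_inner_eq_zero (e (wv n)) (wv n - e (wv n))
          ((heO (wv n)) _ (heE _))
        rw [add_sub_cancel] at h5
        refine (pow_le_pow_iff_left₀ (norm_nonneg _) (norm_nonneg _) two_ne_zero).1 ?_
        rw [sq, sq, h5]
        exact le_add_of_nonneg_left (by positivity)
      exact h4.trans (hnorm' n x).le
    have h4 : ∑ n ∈ Finset.range N, ‖a n‖ ^ 2 ≤ N * (‖b‖ * ‖x‖) ^ 2 := by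
      have := Finset.sum_le_card_nsmul (Finset.range N) (fun n => ‖a n‖ ^ 2) ((‖b‖ * ‖x‖) ^ 2)
        (fun n _ => pow_le_pow_left₀ (norm_nonneg _) (h3 n) 2)
      simpa using this
    have h5 : ‖∑ n ∈ Finset.range N, a n‖ ^ 2 ≤ (Real.sqrt N * ‖b‖ * ‖x‖) ^ 2 := by
      rw [h2, mul_assoc, mul_pow, Real.sq_sqrt (by positivity)]
      exact h4
    exact (pow_le_pow_iff_left₀ (norm_nonneg _) (by positivity) two_ne_zero).1 h5
  have hp1 : ∑ n ∈ Finset.range N, ‖p n‖ ^ 2 ≤ ‖x‖ ^ 2 := by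
    have h2 := norm_sum_orth p (fun m n hmn => horth m n hmn _ (heE _) _ (heE _)) N
    have h3 : inner ℂ (∑ n ∈ Finset.range N, p n) x = ((∑ n ∈ Finset.range N, ‖p n‖ ^ 2 : ℝ) : ℂ) := by
      rw [sum_inner, Complex.ofReal_sum]
      refine Finset.sum_congr rfl fun n _ => ?_
      have h4 : inner ℂ (p n) x = inner ℂ (e (wv n)) (wv n) := by
        rw [hp, hw]
        simp only
        rw [← star_pow, star_right]
      have h5 : inner ℂ (e (wv n)) (wv n) = inner ℂ (e (wv n)) (e (wv n)) := by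
        have h6 : inner ℂ (e (wv n)) (wv n - e (wv n)) = 0 := (heO (wv n)) _ (heE _)
        rw [inner_sub_right, sub_eq_zero] at h6
        exact h6
      rw [h4, h5, inner_self_eq_norm_sq_to_K]
      simp only [hp, hnorm]
      simp
    have h4 : (∑ n ∈ Finset.range N, ‖p n‖ ^ 2) ≤ ‖∑ n ∈ Finset.range N, p n‖ * ‖x‖ := by
      have h5 := norm_inner_le_norm (𝕜 := ℂ) (∑ n ∈ Finset.range N, p n) x
      rw [h3, Complex.norm_real, Real.norm_of_nonneg (by positivity)] at h5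
      exact h5
    rw [← h2] at h4 ⊢
    by_cases h0 : ‖∑ n ∈ Finset.range N, p n‖ = 0
    · rw [h0, zero_pow two_ne_zero]
      positivity
    · have h5 : 0 < ‖∑ n ∈ Finset.range N, p n‖ := lt_of_le_of_ne (norm_nonneg _) (Ne.symm h0)
      rw [sq] at h4
      exact pow_le_pow_left₀ h5.le (le_of_mul_le_mul_left h4 h5) 2
  have hp2 : ‖∑ n ∈ Finset.range N, (v ^ n) (b (e (wv n)))‖ ≤ Real.sqrt N * ‖b‖ * ‖x‖ := by
    have h2 : ∀ n, ‖(v ^ n) (b (e (wv n)))‖ ≤ ‖b‖ * ‖p n‖ := by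
      intro n
      simp only [hp, hnorm]
      exact b.le_opNorm _
    have h3 : ‖∑ n ∈ Finset.range N, (v ^ n) (b (e (wv n)))‖ ≤ ‖b‖ * ∑ n ∈ Finset.range N, ‖p n‖ := by
      rw [Finset.mul_sum]
      exact (norm_sum_le _ _).trans (Finset.sum_le_sum fun n _ => h2 n)
    have h4 : (∑ n ∈ Finset.range N, ‖p n‖) ^ 2 ≤ N * ∑ n ∈ Finset.range N, ‖p n‖ ^ 2 := by
      have := sq_sum_le_card_mul_sum_sq (s := Finset.range N) (f := fun n => ‖p n‖)
      simpa using this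
    have h5 : ∑ n ∈ Finset.range N, ‖p n‖ ≤ Real.sqrt N * ‖x‖ := by
      refine (pow_le_pow_iff_left₀ (Finset.sum_nonneg fun n _ => norm_nonneg _) (by positivity)
        two_ne_zero).1 (h4.trans ?_)
      rw [mul_pow, Real.sq_sqrt (by positivity)]
      exact mul_le_mul_of_nonneg_left hp1 (by positivity)
    calc _ ≤ ‖b‖ * ∑ n ∈ Finset.range N, ‖p n‖ := h3
      _ ≤ ‖b‖ * (Real.sqrt N * ‖x‖) := mul_le_mul_of_nonneg_left h5 (norm_nonneg _)
      _ = Real.sqrt N * ‖b‖ * ‖x‖ := by ring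
  rw [sum_apply, Finset.sum_congr rfl fun n _ => h1 n, Finset.sum_add_distrib]
  calc _ ≤ _ := norm_add_le _ _
    _ ≤ Real.sqrt N * ‖b‖ * ‖x‖ + Real.sqrt N * ‖b‖ * ‖x‖ := add_le_add hp2 ha1
    _ = 2 * Real.sqrt N * ‖b‖ * ‖x‖ := by ring

end Pool.Agent.H54.FP
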