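import Pool.Agent.H54.FP.Uni

/-!
# [H54 FP UNB] The reduced free power has only one trace, conclusion
-/

namespace Pool.Agent.H54.FP

open Filter Topology MeasureTheory

universe w

variable {H : Type w} [NormedAddCommGroup H] [InnerProductSpace ℂ H] [CompleteSpace H] {k : ℕ}

/-- second case: `L` starts with `i` and ends with another index -/
theorem uni_diff (hk : 2 ≤ k) (F : FreeRep k H) (φ : F.alg →L[ℂ] ℂ)
    (hφ : ∀ a b, φ (a * b) = φ (b * a)) {L : List (Fin k × C(unitInterval, ℂ))} {i : Fin k}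
    {f : C(unitInterval, ℂ)} (hL : Alt ((i, f) :: L)) (hne : L ≠ [])
    (hl : ∀ q ∈ L.getLast?, q.1 ≠ i) : φ ⟨F.pr ((i, f) :: L), pr_mem F _⟩ = 0 := by
  obtain ⟨t1, t2, t3⟩ := alt_tail hL
  set b : F.alg := ⟨F.pr ((i, f) :: L), pr_mem F _⟩ with hb
  have hB : ∀ M : ℕ, 1 ≤ M → ‖φ b‖ ≤ ‖φ‖ * ‖F.pr L‖ * ‖mean (chi ^ M * f)‖ := by
    intro M hM
    set g : C(unitInterval, ℂ) := chi ^ M * f with hg
    set c : C(unitInterval, ℂ) := star (chi ^ M) with hc
    set U : F.alg := ⟨F.ι i (chi ^ M), ι_mem F i _⟩ with hU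
    set U' : F.alg := ⟨F.ι i c, ι_mem F i _⟩ with hU'
    have hUU : U' * U = 1 := by
      refine Subtype.ext ?_
      change F.ι i c * F.ι i (chi ^ M) = 1
      rw [← map_mul, hc, star_chi_pow, map_one]
    have h1 : φ (U * b * U') = φ b := by
      rw [hφ, ← mul_assoc, hUU, one_mul]
    have hcm : ∫ t, c t = 0 := mean_star (chi_mean M hM)
    have hA : Alt (L ++ [(i, c)]) := by
      refine alt_append t1 ⟨List.isChain_singleton _, ?_⟩ ?_
      · intro p hp
        rw [List.mem_singleton.1 hp]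
        exact hcm
      · intro p hp q hq
        simp only [List.head?_cons, Option.mem_def, Option.some.injEq] at hq
        rw [← hq]
        exact hl p hp
    have hA' : Alt ((i, ctr g) :: (L ++ [(i, c)])) := by
      refine alt_cons (ctr_mean g) hA ?_
      intro q hq
      rw [List.head?_append_of_ne_nil _ hne] at hq
      exact t2 q hq
    have h2 : U * b * U' = ⟨F.pr ((i, ctr g) :: (L ++ [(i, c)])), pr_mem F _⟩ +
        mean g • (⟨F.pr (L ++ [(i, c)]), pr_mem F _⟩ : F.alg) := by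
      refine Subtype.ext ?_
      change F.ι i (chi ^ M) * F.pr ((i, f) :: L) * F.ι i c =
        F.pr ((i, ctr g) :: (L ++ [(i, c)])) + mean g • F.pr (L ++ [(i, c)])
      rw [pr_cons, pr_cons, pr_append, pr_cons, pr_nil, mul_one]
      have e1 : F.ι i (chi ^ M) * (F.ι i f * F.pr L) * F.ι i c =
          F.ι i g * (F.pr L * F.ι i c) := by
        rw [hg, map_mul]
        simp only [mul_assoc]
      rw [e1, ι_split F i g, add_mul, smul_mul_assoc, one_mul]
    have h3 : φ ⟨F.pr ((i, ctr g) :: (L ++ [(i, c)])), pr_mem F _⟩ = 0 := by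
      refine uni_same hk F φ hφ hA' (by simp) i ?_ ?_
      · intro q hq
        simp only [List.head?_cons, Option.mem_def, Option.some.injEq] at hq
        rw [← hq]
      · intro q hq
        rw [← List.cons_append, List.getLast?_append_of_ne_nil _ (by simp)] at hq
        simp only [List.getLast?_singleton, Option.mem_def, Option.some.injEq] at hq
        rw [← hq]
    rw [← h1, h2, map_add, h3, zero_add, map_smul, norm_smul]
    have h4 : ‖(⟨F.pr (L ++ [(i, c)]), pr_mem F _⟩ : F.alg)‖ ≤ ‖F.pr L‖ := by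
      change ‖F.pr (L ++ [(i, c)])‖ ≤ ‖F.pr L‖
      rw [pr_append, pr_cons, pr_nil, mul_one]
      refine (norm_mul_le _ _).trans ?_
      have h5 : ‖F.ι i c‖ ≤ 1 := (NonUnitalStarAlgHom.norm_apply_le (F.ι i) c).trans (chi_norm M)
      have := mul_le_mul_of_nonneg_left h5 (norm_nonneg (F.pr L))
      rwa [mul_one] at this
    have h5 := (φ.le_opNorm (⟨F.pr (L ++ [(i, c)]), pr_mem F _⟩ : F.alg)).trans
      (mul_le_mul_of_nonneg_left h4 (norm_nonneg _))
    calc _ ≤ ‖mean g‖ * (‖φ‖ * ‖F.pr L‖) := mul_le_mul_of_nonneg_left h5 (norm_nonneg _)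
      _ = _ := by ring
  have h1 := ((chi_tendsto F i f).norm).const_mul (‖φ‖ * ‖F.pr L‖)
  rw [norm_zero, mul_zero] at h1
  have h2 : ‖φ b‖ ≤ 0 := ge_of_tendsto h1 (by
    filter_upwards [eventually_ge_atTop 1] with M hM
    exact hB M hM)
  exact norm_le_zero_iff.1 h2

theorem uni_pr (hk : 2 ≤ k) (F : FreeRep k H) (φ : F.alg →L[ℂ] ℂ)
    (hφ : ∀ a b, φ (a * b) = φ (b * a)) {L : List (Fin k × C(unitInterval, ℂ))} (hL : Alt L)
    (hne : L ≠ []) : φ ⟨F.pr L, pr_mem F L⟩ = 0 := by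
  obtain ⟨⟨i, f⟩, L', rfl⟩ := List.exists_cons_of_ne_nil hne
  by_cases h : ∀ q ∈ ((i, f) :: L').getLast?, q.1 = i
  · refine uni_same hk F φ hφ hL hne i ?_ h
    intro q hq
    simp only [List.head?_cons, Option.mem_def, Option.some.injEq] at hq
    rw [← hq]
  · push Not at h
    obtain ⟨q, hq, hqi⟩ := h
    have hne' : L' ≠ [] := by
      rintro rfl
      simp only [List.getLast?_singleton, Option.mem_def, Option.some.injEq] at hq
      exact hqi (by rw [← hq])
    refine uni_diff hk F φ hφ hL hne' ?_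
    intro r hr
    rw [← List.singleton_append, List.getLast?_append_of_ne_nil _ hne'] at hq
    rw [Option.mem_unique hr hq]
    exact hqi

theorem D_le_alg (F : FreeRep k H) : ∀ d ∈ F.D, d ∈ F.alg := by
  have h1 : F.D ≤ F.alg.toSubmodule := by
    unfold FreeRep.D
    rw [Submodule.span_le]
    rintro _ ⟨L, hL, rfl⟩
    exact pr_mem F L
  exact fun d hd => h1 hd

/-- uniqueness of the trace -/
theorem uni (hk : 2 ≤ k) (F : FreeRep k H) (φ : F.alg →L[ℂ] ℂ) (hφ1 : φ 1 = 1)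
    (hφ : ∀ a b, φ (a * b) = φ (b * a)) (a : F.alg) :
    φ a = inner ℂ F.Ω ((a : H →L[ℂ] H) F.Ω) := by
  let ψ : F.alg →L[ℂ] ℂ := (innerSL ℂ F.Ω).comp ((ContinuousLinearMap.apply ℂ H F.Ω).comp
    F.alg.toSubmodule.subtypeL)
  have hψ : ∀ a : F.alg, ψ a = inner ℂ F.Ω ((a : H →L[ℂ] H) F.Ω) := fun a => rfl
  rw [← hψ]
  have h0 : ∀ L (hL : Alt L), φ ⟨F.pr L, pr_mem F L⟩ = ψ ⟨F.pr L, pr_mem F L⟩ := by
    intro L hL
    by_cases hne : L = []
    · subst hne
      have h1 : (⟨F.pr [], pr_mem F []⟩ : F.alg) = 1 := rfl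
      rw [h1, hφ1, hψ]
      change 1 = inner ℂ F.Ω F.Ω
      rw [inner_self_eq_norm_sq_to_K, F.norm_Ω]
      simp
    · rw [uni_pr hk F φ hφ hL hne, hψ]
      exact (free_alt F hne hL).symm
  have h1 : ∀ d (hd : d ∈ F.D) (hd' : d ∈ F.alg), φ ⟨d, hd'⟩ = ψ ⟨d, hd'⟩ := by
    intro d hd
    induction hd using Submodule.span_induction with
    | mem d hd =>
      obtain ⟨L, hL, rfl⟩ := hd
      intro _
      exact h0 L hL
    | zero =>
      intro hd'
      have : (⟨0, hd'⟩ : F.alg) = 0 := rfl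
      rw [this, map_zero, map_zero]
    | add d d' h h' ih ih' =>
      intro hd'
      have m1 : d ∈ F.alg := D_le_alg F d h
      have m2 : d' ∈ F.alg := D_le_alg F d' h'
      have : (⟨d + d', hd'⟩ : F.alg) = ⟨d, m1⟩ + ⟨d', m2⟩ := rfl
      rw [this, map_add, map_add, ih m1, ih' m2]
    | smul c d h ih =>
      intro hd'
      have m1 : d ∈ F.alg := D_le_alg F d h
      have : (⟨c • d, hd'⟩ : F.alg) = c • ⟨d, m1⟩ := rfl
      rw [this, map_smul, map_smul, ih m1]
  have h2 : IsClosed {a : F.alg | φ a = ψ a} := isClosed_eq φ.continuous ψ.continuous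
  have h3 : a ∈ closure {a : F.alg | (a : H →L[ℂ] H) ∈ F.D} := by
    rw [closure_subtype]
    refine closure_mono ?_ (alg_le_D F a a.2)
    intro d hd
    exact ⟨⟨d, D_le_alg F d hd⟩, hd, rfl⟩
  exact closure_minimal (fun (d : F.alg) (hd : (d : H →L[ℂ] H) ∈ F.D) =>
    h1 (d : H →L[ℂ] H) hd (Subtype.property d)) h2 h3

end Pool.Agent.H54.FP
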