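import Pool.Agent.H54.FP.Dns
import Pool.Agent.H54.FP.Pow

/-!
# [H54 FP UNI] The reduced free power has only one trace (`k ≥ 2`)

Powers averaging over the powers of the character `ι_p(χ)`.
-/

namespace Pool.Agent.H54.FP

open Filter Topology MeasureTheory

universe w

variable {H : Type w} [NormedAddCommGroup H] [InnerProductSpace ℂ H] [CompleteSpace H] {k : ℕ}

/-- vectors of products which do not start with `p` -/
noncomputable def FreeRep.E (F : FreeRep k H) (p : Fin k) : Submodule ℂ H :=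
  (Submodule.span ℂ {x | ∃ L, Alt L ∧ (∀ q ∈ L.head?, q.1 ≠ p) ∧ F.pr L F.Ω = x}).topologicalClosure

theorem mem_E (F : FreeRep k H) {p : Fin k} {L : List (Fin k × C(unitInterval, ℂ))} (h : Alt L)
    (hh : ∀ q ∈ L.head?, q.1 ≠ p) : F.pr L F.Ω ∈ F.E p :=
  Submodule.le_topologicalClosure _ (Submodule.subset_span ⟨L, h, hh, rfl⟩)

theorem E_le (F : FreeRep k H) {p : Fin k} {V : Submodule ℂ H} (hV : IsClosed (V : Set H))
    (h : ∀ L, Alt L → (∀ q ∈ L.head?, q.1 ≠ p) → F.pr L F.Ω ∈ V) : F.E p ≤ V := by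
  refine Submodule.topologicalClosure_minimal _ ?_ hV
  rw [Submodule.span_le]
  rintro _ ⟨L, hL, hh, rfl⟩
  exact h L hL hh

theorem E_orth (F : FreeRep k H) {p : Fin k} {f : C(unitInterval, ℂ)} (hf : ∫ t, f t = 0)
    {x y : H} (hx : x ∈ F.E p) (hy : y ∈ F.E p) : inner ℂ x (F.ι p f y) = 0 := by
  have h1 : ∀ L, Alt L → (∀ q ∈ L.head?, q.1 ≠ p) → inner ℂ (F.pr L F.Ω) (F.ι p f y) = 0 := by
    intro L hL hh
    have hV : IsClosed ((LinearMap.ker (((innerSL ℂ (F.pr L F.Ω)).comp (F.ι p f) : H →L[ℂ] ℂ) :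
        H →ₗ[ℂ] ℂ) : Submodule ℂ H) : Set H) :=
      ((innerSL ℂ (F.pr L F.Ω)).comp (F.ι p f) : H →L[ℂ] ℂ).isClosed_ker
    refine E_le F hV ?_ hy
    intro L' hL' hh'
    rw [LinearMap.mem_ker]
    change inner ℂ (F.pr L F.Ω) (F.ι p f (F.pr L' F.Ω)) = 0
    have h2 := orth_pr F hL (alt_cons hf hL' fun q hq => (hh' q hq).symm) (by
      intro q hq r hr
      simp only [List.head?_cons, Option.mem_def, Option.some.injEq] at hr
      rw [← hr]
      exact hh q hq) (Or.inr (by simp))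
    rw [pr_cons] at h2
    exact h2
  have h2 : F.E p ≤ (ℂ ∙ (F.ι p f y))ᗮ := by
    refine E_le F (Submodule.isClosed_orthogonal _) ?_
    intro L hL hh
    rw [Submodule.mem_orthogonal_singleton_iff_inner_left]
    exact h1 L hL hh
  exact (Submodule.mem_orthogonal_singleton_iff_inner_left.1 (h2 hx))

theorem E_complete (F : FreeRep k H) (p : Fin k) : CompleteSpace (F.E p) :=
  (Submodule.isClosed_topologicalClosure _).completeSpace_coe

theorem chi_unitary (F : FreeRep k H) (p : Fin k) :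
    star (F.ι p chi) * F.ι p chi = 1 ∧ F.ι p chi * star (F.ι p chi) = 1 := by
  rw [← map_star, ← map_mul, ← map_mul, mul_comm chi, star_chi_mul, map_one]
  exact ⟨rfl, rfl⟩

/-- `pr L` maps the orthogonal complement of `E p` into `E p` if `L` starts and ends with an index `≠ p` -/
theorem pr_E (F : FreeRep k H) {p : Fin k} {L : List (Fin k × C(unitInterval, ℂ))} (hL : Alt L)
    (hne : L ≠ []) (hh : ∀ q ∈ L.head?, q.1 ≠ p) (hl : ∀ q ∈ L.getLast?, q.1 ≠ p) :
    ∀ x ∈ (F.E p)ᗮ, F.pr L x ∈ F.E p := by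
  have := E_complete F p
  set e := (F.E p).starProjection with he
  have hEc : IsClosed (F.E p : Set H) := Submodule.isClosed_topologicalClosure _
  have h1 : ∀ x, x ∈ (F.E p).comap ((F.pr L * (1 - e) : H →L[ℂ] H) : H →ₗ[ℂ] H) := by
    refine vec_top F _ (hEc.preimage (F.pr L * (1 - e) : H →L[ℂ] H).continuous) ?_
    intro L' hL'
    change F.pr L (F.pr L' F.Ω - e (F.pr L' F.Ω)) ∈ F.E p
    by_cases hp : ∀ q ∈ L'.head?, q.1 ≠ p
    · have h2 : e (F.pr L' F.Ω) = F.pr L' F.Ω :=
        Submodule.starProjection_eq_self_iff.2 (mem_E F hL' hp)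
      rw [h2, sub_self, map_zero]
      exact Submodule.zero_mem _
    · push Not at hp
      obtain ⟨q, hq, hqp⟩ := hp
      obtain ⟨L'', rfl⟩ : ∃ L'', L' = q :: L'' := by
        cases L' with
        | nil => simp at hq
        | cons a L' =>
          simp only [List.head?_cons, Option.mem_def, Option.some.injEq] at hq
          exact ⟨L', by rw [hq]⟩
      obtain ⟨t1, t2, t3⟩ := alt_tail hL'
      have h2 : e (F.pr (q :: L'') F.Ω) = 0 := by
        rw [he, Submodule.starProjection_apply_eq_zero_iff, Submodule.mem_orthogonal]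
        intro y hy
        rw [pr_cons, hqp]
        exact E_orth F t3 hy (mem_E F t1 fun r hr => by rw [← hqp]; exact (t2 r hr).symm)
      rw [h2, sub_zero, ← mul_apply_eq_comp, ← pr_append]
      refine mem_E F (alt_append hL hL' ?_) ?_
      · intro r hr s hs
        simp only [List.head?_cons, Option.mem_def, Option.some.injEq] at hs
        rw [← hs, hqp]
        exact hl r hr
      · intro r hr
        rw [List.head?_append_of_ne_nil _ hne] at hr
        exact hh r hr
  intro x hx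
  have h2 : e x = 0 := by
    rw [he, Submodule.starProjection_apply_eq_zero_iff]
    exact hx
  have h3 := h1 x
  change F.pr L (x - e x) ∈ F.E p at h3
  rwa [h2, sub_zero] at h3

theorem pr_mem (F : FreeRep k H) (L : List (Fin k × C(unitInterval, ℂ))) : F.pr L ∈ F.alg := by
  induction L with
  | nil => rw [pr_nil]; exact one_mem _
  | cons p L ih => rw [pr_cons]; exact mul_mem (ι_mem F _ _) ih

/-- first case: `L` starts and ends with the same index -/
theorem uni_same (hk : 2 ≤ k) (F : FreeRep k H) (φ : F.alg →L[ℂ] ℂ)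
    (hφ : ∀ a b, φ (a * b) = φ (b * a)) {L : List (Fin k × C(unitInterval, ℂ))} (hL : Alt L)
    (hne : L ≠ []) (i : Fin k) (hh : ∀ q ∈ L.head?, q.1 = i) (hl : ∀ q ∈ L.getLast?, q.1 = i) :
    φ ⟨F.pr L, pr_mem F L⟩ = 0 := by
  obtain ⟨p, hp⟩ : ∃ p : Fin k, p ≠ i := by
    have : Nontrivial (Fin k) := Fin.nontrivial_iff_two_le.2 hk
    exact exists_ne i
  have := E_complete F p
  set b : F.alg := ⟨F.pr L, pr_mem F L⟩ with hb
  set V : F.alg := ⟨F.ι p chi, ι_mem F p chi⟩ with hV
  have hVV : star V * V = 1 := Subtype.ext (chi_unitary F p).1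
  have hconj : ∀ n : ℕ, φ (V ^ n * b * star V ^ n) = φ b := by
    intro n
    have h1 : star V ^ n * V ^ n = 1 := by
      induction n with
      | zero => simp
      | succ n ih =>
        rw [pow_succ, pow_succ', mul_assoc, ← mul_assoc (star V) V, hVV, one_mul, ih]
    rw [hφ, ← mul_assoc, h1, one_mul]
  have hpow := powers (F.E p) (F.ι p chi) (F.pr L) (chi_unitary F p).1 (chi_unitary F p).2 (by
    intro n hn x hx y hy
    rw [← map_pow]
    exact E_orth F (chi_mean n hn) hx hy)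
    (pr_E F hL hne (fun q hq => by rw [hh q hq]; exact hp.symm)
      (fun q hq => by rw [hl q hq]; exact hp.symm))
  have h1 : ∀ N : ℕ, (N : ℝ) * ‖φ b‖ ≤ ‖φ‖ * (2 * Real.sqrt N * ‖F.pr L‖) := by
    intro N
    have h2 : φ (∑ n ∈ Finset.range N, V ^ n * b * star V ^ n) = N * φ b := by
      rw [map_sum]
      simp only [hconj, Finset.sum_const, Finset.card_range, nsmul_eq_mul]
    have h3 := φ.le_opNorm (∑ n ∈ Finset.range N, V ^ n * b * star V ^ n)
    rw [h2, norm_mul, Complex.norm_natCast] at h3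
    refine h3.trans (mul_le_mul_of_nonneg_left ?_ (norm_nonneg _))
    have h4 := hpow N
    have h5 : ‖(∑ n ∈ Finset.range N, V ^ n * b * star V ^ n : F.alg)‖ =
        ‖∑ n ∈ Finset.range N, F.ι p chi ^ n * F.pr L * star (F.ι p chi) ^ n‖ := by
      change ‖((∑ n ∈ Finset.range N, V ^ n * b * star V ^ n : F.alg) : H →L[ℂ] H)‖ = _
      push_cast
      rfl
    rw [h5]
    exact h4
  by_contra h0
  have h2 : 0 < ‖φ b‖ := norm_pos_iff.2 h0
  set C := ‖φ‖ * (2 * ‖F.pr L‖) with hC
  have hC0 : 0 ≤ C := by positivity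
  obtain ⟨N, hN⟩ := exists_nat_gt ((C / ‖φ b‖) ^ 2)
  have hN0 : 0 < (N : ℝ) := lt_of_le_of_lt (sq_nonneg _) hN
  have h3 := h1 N
  have h4 : Real.sqrt N * Real.sqrt N = N := Real.mul_self_sqrt hN0.le
  have h5 : 0 < Real.sqrt N := Real.sqrt_pos.2 hN0
  have h6 : Real.sqrt N * ‖φ b‖ ≤ C := by
    have h7 : Real.sqrt N * (Real.sqrt N * ‖φ b‖) ≤ Real.sqrt N * C := by
      rw [← mul_assoc, h4, hC]
      calc _ ≤ _ := h3
        _ = _ := by ring
    exact le_of_mul_le_mul_left h7 h5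
  have h7 : Real.sqrt N ≤ C / ‖φ b‖ := by rwa [le_div_iff₀ h2]
  have h8 : (N : ℝ) ≤ (C / ‖φ b‖) ^ 2 := by
    rw [← Real.sq_sqrt hN0.le]
    exact pow_le_pow_left₀ h5.le h7 2
  linarith

end Pool.Agent.H54.FP
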